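import Pool.Agent.Strip051.LC.E1.V0.Rw
import Pool.Agent.Strip051.LC.E0.Ch.Cell

/-! # Rests near the full period: the row between the vertical axis and `W`, certificates -/

set_option maxRecDepth 100000

namespace Pool.Agent.Strip051.LC.E1.V0

open Pool.Agent.Strip051.PB
open Pool.Agent.Strip051.LC.E0.Ch (onCell Tree)

def x1f_t0 : T :=
  (.a (.a (.b (.l 10152) (.l 10184)) (.a (.b (.l 10152) (.l 10176)) (.b (.l 10152) (.l 10176))))
      (.a (.b (.b (.b (.b (.c (.b (.l 20384) (.l 20384)) (.b (.l 10144) (.l 10144))) (.l 10144))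
      (.l 10144)) (.b (.l 10144) (.l 10144))) (.b (.l 10144) (.l 10176))) (.a (.b (.b (.b (.b (.b
      (.l 10144) (.l 10144)) (.l 10144)) (.l 10144)) (.l 10144)) (.l 10176)) (.c (.b (.b (.b (.l
      20384) (.l 20384)) (.l 20384)) (.l 20416)) (.b (.b (.b (.l 10144) (.l 10144)) (.l 10144))
      (.l 10176))))))

theorem x1f_h0 : chk3 (onCell 0 2684354560 0 1073741824 0 26843546 T1f) x1f_t0 4 2 2 = true := by decide +kernel

def x1f_t1 : T :=
  (.a (.a (.b (.l 5032) (.l 5064)) (.a (.b (.l 5032) (.l 5056)) (.b (.l 5032) (.l 5056)))) (.a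
      (.b (.b (.b (.b (.c (.b (.l 6816) (.l 6816)) (.b (.l 5024) (.l 5024))) (.l 5024)) (.l
      5024)) (.b (.l 5024) (.l 5024))) (.b (.l 5024) (.l 5056))) (.a (.b (.b (.b (.b (.c (.b (.l
      6816) (.l 6816)) (.b (.l 5024) (.l 5024))) (.l 5024)) (.l 5024)) (.l 5024)) (.l 5056)) (.c
      (.b (.b (.b (.l 6816) (.l 6816)) (.l 6816)) (.l 6848)) (.b (.b (.b (.b (.l 5024) (.l 5024))
      (.l 5024)) (.l 5024)) (.l 5056))))))

theorem x1f_h1 : chk3 (onCell 0 2684354560 0 1073741824 0 26843546 T1f) x1f_t1 4 2 3 = true := by decide +kernel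

def x1f_t2 : T :=
  (.c (.a (.b (.l 10184) (.l 79)) (.b (.a (.b (.l 10176) (.l 15)) (.b (.l 10176) (.l 15))) (.l
      15))) (.a (.b (.l 5064) (.l 79)) (.b (.a (.b (.l 5056) (.l 15)) (.b (.l 5056) (.l 15))) (.l
      15))))

theorem x1f_h2 : chk3 (onCell 0 2684354560 0 1073741824 0 26843546 T1f) x1f_t2 4 3 1 = true := by decide +kernel

def x1f_t3 : T :=
  (.b (.a (.b (.b (.a (.l 12) (.l 12)) (.a (.b (.l 5024) (.l 5024)) (.l 12))) (.a (.b (.l 5056)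
      (.l 5056)) (.b (.l 5056) (.l 5056)))) (.a (.b (.b (.b (.l 12) (.l 12)) (.b (.l 5024) (.l
      5024))) (.b (.l 5056) (.l 5056))) (.b (.a (.b (.b (.a (.b (.l 5026) (.l 5024)) (.l 5026))
      (.l 5024)) (.l 5024)) (.b (.a (.l 5026) (.l 5026)) (.l 5024))) (.a (.a (.l 5058) (.l 5058))
      (.l 5058))))) (.b (.b (.a (.b (.l 5056) (.l 15)) (.a (.l 5056) (.l 5056))) (.l 15)) (.l
      15)))

theorem x1f_h3 : chk3 (onCell 0 2684354560 0 1073741824 0 26843546 T1f) x1f_t3 5 1 1 = true := by decide +kernel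

def x1f_t4 : T :=
  (.c (.a (.a (.a (.a (.b (.l 10146) (.l 10178)) (.b (.l 10146) (.l 10178))) (.a (.b (.l 10146)
      (.l 10178)) (.b (.l 10146) (.l 10178)))) (.a (.a (.l 10178) (.l 10178)) (.a (.l 10178) (.l
      10178)))) (.a (.a (.l 10178) (.l 10178)) (.a (.l 10178) (.l 10178)))) (.a (.a (.a (.b (.b
      (.l 5026) (.l 5026)) (.l 5058)) (.b (.l 5026) (.l 5058))) (.a (.b (.l 5026) (.l 5058)) (.b
      (.l 5026) (.l 5058)))) (.a (.a (.b (.l 5026) (.l 5058)) (.b (.l 5026) (.l 5058))) (.a (.b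
      (.l 5026) (.l 5058)) (.b (.l 5026) (.l 5058))))))

theorem x1f_h4 : chk3 (onCell 0 2684354560 0 1073741824 0 26843546 T1f) x1f_t4 6 2 1 = true := by decide +kernel

def x1f_t5 : T :=
  (.c (.a (.a (.a (.a (.b (.l 10178) (.l 15)) (.b (.l 10178) (.l 15))) (.a (.b (.l 10178) (.l
      15)) (.l 10178))) (.a (.a (.l 10178) (.l 10178)) (.a (.l 10178) (.l 10178)))) (.a (.a (.l
      10178) (.l 10178)) (.a (.l 10178) (.l 10178)))) (.a (.a (.a (.b (.l 5058) (.l 15)) (.b (.l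
      5058) (.l 15))) (.a (.b (.l 5058) (.l 15)) (.b (.l 5058) (.l 15)))) (.a (.a (.b (.l 5058)
      (.l 15)) (.b (.l 5058) (.l 15))) (.a (.b (.l 5058) (.l 15)) (.b (.l 5058) (.l 15))))))

theorem x1f_h5 : chk3 (onCell 0 2684354560 0 1073741824 0 26843546 T1f) x1f_t5 6 3 1 = true := by decide +kernel

def x1f_t6 : T :=
  (.b (.c (.a (.a (.a (.l 10178) (.l 10178)) (.l 10178)) (.a (.l 10178) (.l 10178))) (.c (.a (.a
      (.a (.l 6850) (.l 6850)) (.a (.l 6850) (.l 6850))) (.a (.a (.l 6850) (.l 6850)) (.a (.l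
      6850) (.l 6850)))) (.a (.a (.a (.b (.l 5026) (.l 5058)) (.a (.c (.l 5826) (.l 66)) (.c (.l
      5826) (.l 66)))) (.a (.a (.c (.l 5826) (.l 66)) (.c (.l 5826) (.c (.l 5442) (.l 5058))))
      (.c (.l 5826) (.c (.l 5442) (.a (.l 5058) (.l 5058)))))) (.a (.a (.c (.l 5826) (.c (.l
      5442) (.a (.l 5058) (.l 5058)))) (.c (.l 5826) (.c (.l 5442) (.a (.l 5058) (.l 5058)))))
      (.a (.c (.l 5826) (.c (.l 5442) (.a (.l 5058) (.l 5058)))) (.c (.l 5826) (.c (.l 5442) (.a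
      (.l 5058) (.l 5058))))))))) (.c (.a (.a (.a (.l 10178) (.l 10178)) (.l 10178)) (.a (.l
      10178) (.l 10178))) (.b (.a (.a (.l 5058) (.l 5058)) (.a (.l 5058) (.l 5058))) (.l 15))))

theorem x1f_h6 : chk3 (onCell 0 2684354560 0 1073741824 0 26843546 T1f) x1f_t6 7 1 1 = true := by decide +kernel

theorem x1f : Tree 0 2684354560 0 1073741824 0 26843546 T1f :=
  ⟨_, (chk3_a (chk3_a (chk3_b (chk3_c x1f_h0 x1f_h1) x1f_h2) x1f_h3) (chk3_a (chk3_b x1f_h4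
      x1f_h5) x1f_h6))⟩

def x1n_t0 : T :=
  (.b (.c (.a (.a (.l 10184) (.a (.l 10184) (.l 10184))) (.a (.a (.b (.b (.l 10144) (.l 10144))
      (.l 10176)) (.b (.b (.l 10144) (.l 10144)) (.l 10176))) (.a (.c (.b (.b (.b (.l 20384) (.l
      20384)) (.l 20384)) (.l 20416)) (.a (.b (.l 10144) (.l 10176)) (.b (.b (.l 10144) (.l
      10144)) (.l 10176)))) (.b (.b (.b (.l 10144) (.l 10144)) (.l 10144)) (.l 10176))))) (.a (.a
      (.l 5064) (.a (.l 5064) (.l 5064))) (.a (.a (.b (.b (.l 5024) (.l 5024)) (.l 5056)) (.b (.b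
      (.l 5024) (.l 5024)) (.l 5056))) (.a (.c (.a (.b (.l 6816) (.l 6848)) (.b (.b (.l 6816) (.l
      6816)) (.l 6848))) (.b (.b (.b (.l 5024) (.l 5024)) (.l 5024)) (.l 5056))) (.b (.b (.b (.l
      5024) (.l 5024)) (.l 5024)) (.l 5056)))))) (.c (.a (.a (.l 10184) (.b (.l 10184) (.l 15)))
      (.b (.a (.b (.l 10176) (.l 15)) (.b (.l 10176) (.l 15))) (.l 15))) (.a (.a (.l 5064) (.b
      (.l 5064) (.l 15))) (.b (.a (.b (.l 5056) (.l 15)) (.b (.l 5056) (.l 15))) (.l 15)))))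

theorem x1n_h0 : chk3 (onCell 0 2684354560 0 1073741824 0 26843546 T1n) x1n_t0 4 1 1 = true := by decide +kernel

def x1n_t1 : T :=
  (.b (.a (.a (.b (.b (.b (.l 12) (.l 12)) (.b (.l 5024) (.l 5056))) (.b (.l 5056) (.l 5056)))
      (.b (.b (.b (.l 12) (.l 12)) (.b (.l 5024) (.l 5024))) (.b (.l 5056) (.l 5056)))) (.b (.a
      (.b (.b (.l 12) (.l 12)) (.b (.a (.l 5024) (.l 5024)) (.a (.l 5024) (.l 5024)))) (.b (.a
      (.b (.a (.b (.l 5026) (.l 5024)) (.l 5026)) (.l 5024)) (.b (.a (.l 5026) (.l 5026)) (.l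
      5026))) (.a (.l 5026) (.l 5024)))) (.a (.b (.l 5056) (.l 5056)) (.a (.a (.l 5058) (.l
      5058)) (.a (.l 5058) (.l 5058)))))) (.b (.b (.a (.b (.l 5056) (.l 15)) (.a (.l 5056) (.l
      5056))) (.l 15)) (.l 15)))

theorem x1n_h1 : chk3 (onCell 0 2684354560 0 1073741824 0 26843546 T1n) x1n_t1 5 1 1 = true := by decide +kernel

def x1n_t2 : T :=
  (.c (.a (.a (.a (.b (.a (.l 10146) (.l 10146)) (.l 10178)) (.a (.b (.l 10146) (.l 10178)) (.b
      (.l 10146) (.l 10178)))) (.a (.a (.b (.l 10146) (.l 10178)) (.b (.l 10146) (.l 10178))) (.a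
      (.b (.l 10146) (.l 10178)) (.b (.l 10146) (.l 10178))))) (.a (.a (.a (.b (.l 10146) (.l
      10178)) (.b (.l 10146) (.l 10178))) (.a (.b (.l 10146) (.l 10178)) (.b (.l 10146) (.l
      10178)))) (.a (.a (.b (.l 10146) (.l 10178)) (.b (.l 10146) (.l 10178))) (.a (.b (.l 10146)
      (.l 10178)) (.b (.l 10146) (.l 10178)))))) (.a (.a (.a (.b (.b (.l 5026) (.l 5026)) (.l
      5058)) (.b (.b (.l 5026) (.l 5026)) (.l 5058))) (.a (.b (.b (.l 5026) (.l 5026)) (.l 5058))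
      (.b (.b (.l 5026) (.l 5026)) (.l 5058)))) (.b (.a (.a (.b (.l 5058) (.l 5026)) (.a (.l
      5058) (.b (.l 5058) (.l 5026)))) (.a (.a (.b (.l 5058) (.l 5026)) (.b (.l 5058) (.l 5026)))
      (.a (.c (.l 6818) (.l 5058)) (.c (.l 6818) (.l 5058))))) (.a (.l 5058) (.a (.l 5058) (.l
      5058))))))

theorem x1n_h2 : chk3 (onCell 0 2684354560 0 1073741824 0 26843546 T1n) x1n_t2 6 2 1 = true := by decide +kernel

def x1n_t3 : T :=
  (.c (.a (.a (.a (.b (.l 10178) (.l 15)) (.a (.b (.l 10178) (.l 15)) (.b (.l 10178) (.l 15))))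
      (.a (.a (.b (.l 10178) (.l 15)) (.b (.l 10178) (.l 15))) (.a (.b (.l 10178) (.l 15)) (.b
      (.l 10178) (.l 15))))) (.a (.a (.a (.b (.l 10178) (.l 15)) (.b (.l 10178) (.l 15))) (.a (.b
      (.l 10178) (.l 15)) (.b (.l 10178) (.l 15)))) (.a (.a (.b (.l 10178) (.l 15)) (.b (.l
      10178) (.l 15))) (.a (.b (.l 10178) (.l 15)) (.b (.l 10178) (.l 15)))))) (.b (.a (.a (.a
      (.l 5058) (.l 5058)) (.a (.l 5058) (.l 5058))) (.a (.l 5058) (.a (.l 5058) (.l 5058)))) (.l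
      15)))

theorem x1n_h3 : chk3 (onCell 0 2684354560 0 1073741824 0 26843546 T1n) x1n_t3 6 3 1 = true := by decide +kernel

def x1n_t4 : T :=
  (.a (.a (.a (.a (.l 10178) (.l 10178)) (.b (.l 10146) (.l 10178))) (.a (.b (.l 10146) (.l
      10178)) (.l 10178))) (.a (.a (.l 10178) (.l 10178)) (.a (.l 10178) (.l 10178))))

theorem x1n_h4 : chk3 (onCell 0 2684354560 0 1073741824 0 26843546 T1n) x1n_t4 7 2 2 = true := by decide +kernel

def x1n_t5 : T :=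
  (.b (.a (.a (.a (.c (.l 6818) (.l 5058)) (.c (.l 6818) (.l 5058))) (.a (.c (.l 6818) (.l 5058))
      (.c (.l 6818) (.l 5058)))) (.a (.a (.c (.l 6818) (.l 5058)) (.a (.c (.l 6818) (.l 5058))
      (.c (.l 6818) (.l 5058)))) (.a (.a (.c (.l 6818) (.l 5058)) (.c (.l 6818) (.l 5058))) (.a
      (.c (.l 6818) (.l 5058)) (.c (.l 6818) (.l 5058)))))) (.a (.a (.l 5058) (.l 5058)) (.a (.l
      5058) (.l 5058))))

theorem x1n_h5 : chk3 (onCell 0 2684354560 0 1073741824 0 26843546 T1n) x1n_t5 14 2 3 = true := by decide +kernel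

def x1n_t6 : T :=
  (.c (.a (.b (.l 6850) (.l 6850)) (.a (.b (.l 6850) (.l 6850)) (.b (.l 6850) (.l 6850)))) (.a
      (.a (.c (.c (.l 6338) (.b (.l 5794) (.l 5826))) (.c (.b (.l 5410) (.l 5442)) (.b (.l 5026)
      (.l 5058)))) (.c (.c (.l 6338) (.c (.l 6082) (.l 5826))) (.c (.c (.b (.l 5666) (.l 5698))
      (.b (.l 5410) (.l 5442))) (.c (.b (.l 5282) (.l 5314)) (.b (.l 5026) (.l 5058)))))) (.a (.c
      (.c (.l 6338) (.c (.l 6082) (.l 5826))) (.c (.c (.b (.l 5666) (.l 5698)) (.b (.l 5410) (.l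
      5442))) (.c (.a (.b (.l 5282) (.l 5314)) (.b (.l 5282) (.l 5314))) (.a (.b (.l 5026) (.l
      5058)) (.b (.l 5026) (.l 5058)))))) (.c (.c (.l 6338) (.c (.l 6082) (.l 5826))) (.c (.c (.a
      (.l 5698) (.l 5698)) (.a (.l 5442) (.l 5442))) (.c (.a (.b (.l 5282) (.l 5314)) (.c (.l
      5314) (.l 5314))) (.a (.b (.l 5026) (.l 5058)) (.b (.l 5026) (.l 5058)))))))))

theorem x1n_h6 : chk3 (onCell 0 2684354560 0 1073741824 0 26843546 T1n) x1n_t6 30 2 3 = true := by decide +kernel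

def x1n_t7 : T :=
  (.a (.a (.b (.l 6850) (.l 6850)) (.b (.l 6850) (.l 6850))) (.a (.a (.b (.l 6850) (.l 6850)) (.b
      (.l 6850) (.l 6850))) (.a (.b (.l 6850) (.l 6850)) (.b (.l 6850) (.l 6850)))))

theorem x1n_h7 : chk3 (onCell 0 2684354560 0 1073741824 0 26843546 T1n) x1n_t7 31 2 6 = true := by decide +kernel

def x1n_t8 : T :=
  (.a (.c (.c (.l 6338) (.c (.l 6082) (.l 5826))) (.c (.c (.l 66) (.a (.l 5442) (.l 5442))) (.c
      (.a (.c (.l 5314) (.l 5314)) (.c (.l 5314) (.l 5314))) (.a (.c (.l 66) (.b (.l 5026) (.l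
      5058))) (.c (.a (.l 5186) (.l 5186)) (.a (.l 66) (.l 66))))))) (.c (.c (.l 6338) (.c (.l
      6082) (.l 5826))) (.c (.c (.l 5698) (.a (.l 5442) (.l 5442))) (.c (.a (.c (.l 5314) (.l
      5314)) (.c (.l 5314) (.l 5314))) (.a (.c (.a (.l 5186) (.l 5186)) (.a (.l 66) (.l 66))) (.c
      (.a (.l 5186) (.l 5186)) (.a (.l 66) (.l 66))))))))

theorem x1n_h8 : chk3 (onCell 0 2684354560 0 1073741824 0 26843546 T1n) x1n_t8 62 2 7 = true := by decide +kernel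

def x1n_t9 : T :=
  (.a (.c (.c (.l 6338) (.c (.l 6082) (.l 5826))) (.c (.c (.a (.l 5698) (.l 5698)) (.a (.l 5442)
      (.l 5442))) (.c (.a (.c (.l 5314) (.l 5314)) (.c (.l 5314) (.l 5314))) (.a (.c (.a (.l
      5186) (.l 5186)) (.a (.l 66) (.l 66))) (.c (.b (.l 5154) (.l 5186)) (.b (.l 5026) (.l
      5058))))))) (.c (.c (.l 6338) (.c (.l 6082) (.l 5826))) (.c (.c (.a (.l 5698) (.l 5698))
      (.a (.l 5442) (.l 5442))) (.c (.a (.c (.l 5314) (.l 66)) (.b (.l 5282) (.l 5314))) (.a (.c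
      (.b (.l 5154) (.l 5186)) (.b (.l 5026) (.l 5058))) (.c (.b (.l 5154) (.l 5186)) (.b (.l
      5026) (.l 5058))))))))

theorem x1n_h9 : chk3 (onCell 0 2684354560 0 1073741824 0 26843546 T1n) x1n_t9 63 2 7 = true := by decide +kernel

def x1n_t10 : T :=
  (.c (.a (.a (.a (.a (.l 10178) (.l 10178)) (.b (.l 10178) (.l 15))) (.a (.b (.l 10178) (.l 15))
      (.l 10178))) (.a (.a (.l 10178) (.l 10178)) (.a (.l 10178) (.l 10178)))) (.b (.a (.a (.a
      (.l 5058) (.l 5058)) (.a (.l 5058) (.l 5058))) (.a (.a (.l 5058) (.l 5058)) (.a (.l 5058)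
      (.a (.l 5058) (.l 5058))))) (.l 15)))

theorem x1n_h10 : chk3 (onCell 0 2684354560 0 1073741824 0 26843546 T1n) x1n_t10 7 3 1 = true := by decide +kernel

theorem x1n : Tree 0 2684354560 0 1073741824 0 26843546 T1n :=
  ⟨_, (chk3_a (chk3_a x1n_h0 x1n_h1) (chk3_a (chk3_b x1n_h2 x1n_h3) (chk3_b (chk3_c x1n_h4
      (chk3_a x1n_h5 (chk3_a x1n_h6 (chk3_c x1n_h7 (chk3_a x1n_h8 x1n_h9))))) x1n_h10)))⟩

def x2f_t0 : T :=
  (.a (.c (.a (.b (.l 4034) (.l 4034)) (.b (.l 4034) (.l 4034))) (.a (.b (.b (.a (.c (.l 2722)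
      (.l 1954)) (.l 1986)) (.b (.c (.l 2722) (.l 1954)) (.c (.l 2722) (.l 1954)))) (.b (.b (.c
      (.l 2722) (.l 1954)) (.c (.l 2722) (.l 1954))) (.b (.c (.l 2722) (.l 1954)) (.c (.l 2722)
      (.l 1954))))) (.b (.b (.l 1986) (.l 1986)) (.b (.l 1986) (.b (.l 1986) (.l 1986)))))) (.c
      (.a (.b (.l 4034) (.l 4034)) (.l 15)) (.a (.b (.b (.l 1986) (.l 1986)) (.b (.l 1986) (.b
      (.l 1986) (.l 1986)))) (.l 15))))

theorem x2f_h0 : chk3 (onCell 0 1073741824 0 429496730 0 67108864 T2f) x2f_t0 1 1 1 = true := by decide +kernel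

theorem x2f : Tree 0 1073741824 0 429496730 0 67108864 T2f :=
  ⟨_, x2f_h0⟩

def x2n_t0 : T :=
  (.a (.b (.c (.l 8130) (.l 4034)) (.l 4034)) (.b (.l 4034) (.b (.l 4034) (.l 4034))))

theorem x2n_h0 : chk3 (onCell 0 1073741824 0 429496730 0 67108864 T2n) x2n_t0 2 1 2 = true := by decide +kernel

def x2n_t1 : T :=
  (.b (.b (.c (.l 2754) (.l 1986)) (.c (.l 2754) (.a (.l 1954) (.l 1954)))) (.b (.c (.l 2754) (.a
      (.l 1954) (.l 1986))) (.b (.c (.l 2754) (.l 1986)) (.c (.l 2754) (.l 1986)))))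

theorem x2n_h1 : chk3 (onCell 0 1073741824 0 429496730 0 67108864 T2n) x2n_t1 4 2 3 = true := by decide +kernel

def x2n_t2 : T :=
  (.b (.b (.b (.b (.c (.l 2754) (.l 1986)) (.c (.l 2754) (.l 1986))) (.b (.c (.l 2754) (.l 1954))
      (.b (.c (.l 2754) (.l 1954)) (.c (.l 2754) (.l 1954))))) (.b (.b (.b (.c (.l 2754) (.l
      1954)) (.c (.l 2754) (.l 1954))) (.b (.c (.l 2754) (.l 1954)) (.c (.l 2754) (.l 1954))))
      (.b (.b (.c (.l 2754) (.l 1954)) (.c (.l 2754) (.l 1954))) (.b (.c (.l 2754) (.l 1954)) (.c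
      (.l 2754) (.l 1954)))))) (.b (.b (.b (.b (.c (.l 2754) (.l 1954)) (.c (.l 2754) (.l 1954)))
      (.b (.c (.l 2754) (.l 1954)) (.c (.l 2754) (.l 1954)))) (.b (.b (.c (.l 2754) (.l 1954))
      (.c (.l 2754) (.l 1954))) (.b (.c (.l 2754) (.l 1954)) (.c (.l 2754) (.l 1954))))) (.b (.b
      (.b (.c (.l 2754) (.l 1954)) (.c (.l 2754) (.l 1954))) (.b (.c (.l 2754) (.l 1954)) (.c (.l
      2754) (.l 1954)))) (.b (.b (.c (.l 2754) (.l 1954)) (.c (.l 2754) (.l 1954))) (.b (.c (.l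
      2754) (.l 1954)) (.c (.l 2754) (.l 1954)))))))

theorem x2n_h2 : chk3 (onCell 0 1073741824 0 429496730 0 67108864 T2n) x2n_t2 4 3 3 = true := by decide +kernel

def x2n_t3 : T :=
  (.b (.b (.l 1986) (.l 1986)) (.b (.b (.l 1986) (.c (.l 2754) (.l 1986))) (.b (.b (.l 1986) (.l
      1986)) (.b (.l 1986) (.b (.l 1986) (.l 1986))))))

theorem x2n_h3 : chk3 (onCell 0 1073741824 0 429496730 0 67108864 T2n) x2n_t3 5 1 3 = true := by decide +kernel

def x2n_t4 : T :=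
  (.c (.a (.b (.l 4034) (.b (.l 4034) (.l 4034))) (.l 15)) (.a (.b (.b (.l 1986) (.l 1986)) (.b
      (.b (.l 1986) (.c (.l 2754) (.l 1986))) (.b (.b (.l 1986) (.l 1986)) (.b (.l 1986) (.b (.l
      1986) (.l 1986)))))) (.l 15)))

theorem x2n_h4 : chk3 (onCell 0 1073741824 0 429496730 0 67108864 T2n) x2n_t4 3 1 1 = true := by decide +kernel

theorem x2n : Tree 0 1073741824 0 429496730 0 67108864 T2n :=
  ⟨_, (chk3_a (chk3_c x2n_h0 (chk3_a (chk3_b x2n_h1 x2n_h2) x2n_h3)) x2n_h4)⟩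

end Pool.Agent.Strip051.LC.E1.V0
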