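import Pool.Agent.Strip051.LC.E1.V0.Lz

/-! # Rests near the full period: the line `z = 0`, certificates -/

set_option maxRecDepth 100000

namespace Pool.Agent.Strip051.LC.E1.V0

open Pool.Agent.Strip051.PB
open Pool.Agent.Strip051.LC.E1.Ch
open Pool.Agent.Strip051.LC.E0.Ch (onCell Tree)

def xl_i_f_t0 : T :=
  (.l 0)

theorem xl_i_f_h0 : chk3 (onCell 912680550 161061274 0 0 0 26843546 (tnn v0_ffl)) xl_i_f_t0 1 1 1 = true := by decide +kernel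

theorem xl_i_f : Tree 912680550 161061274 0 0 0 26843546 (tnn v0_ffl) :=
  ⟨_, xl_i_f_h0⟩

def xl_d_f_t0 : T :=
  (.a (.c (.l 0) (.l 0)) (.a (.l 0) (.c (.l 0) (.l 0))))

theorem xl_d_f_h0 : chk3 (onCell 644245094 268435457 0 0 0 26843546 (tnn v0_df)) xl_d_f_t0 1 1 1 = true := by decide +kernel

theorem xl_d_f : Tree 644245094 268435457 0 0 0 26843546 (tnn v0_df) :=
  ⟨_, xl_d_f_h0⟩

def xl_o_f_t0 : T :=
  (.l 0)

theorem xl_o_f_h0 : chk3 (onCell 1073741824 107374183 0 0 0 26843546 (tnn v0_ffr)) xl_o_f_t0 1 1 1 = true := by decide +kernel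

theorem xl_o_f : Tree 1073741824 107374183 0 0 0 26843546 (tnn v0_ffr) :=
  ⟨_, xl_o_f_h0⟩

theorem lbz_f : LbZ v0_ffl v0_ffr v0_df := LbZ.of xl_i_f xl_o_f xl_d_f

def xl_i_n_t0 : T :=
  (.l 0)

theorem xl_i_n_h0 : chk3 (onCell 912680550 161061274 0 0 0 26843546 (tnn v0_fnl)) xl_i_n_t0 1 1 1 = true := by decide +kernel

theorem xl_i_n : Tree 912680550 161061274 0 0 0 26843546 (tnn v0_fnl) :=
  ⟨_, xl_i_n_h0⟩

def xl_d_n_t0 : T :=
  (.a (.l 0) (.a (.l 0) (.l 0)))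

theorem xl_d_n_h0 : chk3 (onCell 644245094 268435457 0 0 0 26843546 (tnn v0_dn)) xl_d_n_t0 1 1 1 = true := by decide +kernel

theorem xl_d_n : Tree 644245094 268435457 0 0 0 26843546 (tnn v0_dn) :=
  ⟨_, xl_d_n_h0⟩

def xl_o_n_t0 : T :=
  (.l 0)

theorem xl_o_n_h0 : chk3 (onCell 1073741824 107374183 0 0 0 26843546 (tnn v0_fnr)) xl_o_n_t0 1 1 1 = true := by decide +kernel

theorem xl_o_n : Tree 1073741824 107374183 0 0 0 26843546 (tnn v0_fnr) :=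
  ⟨_, xl_o_n_h0⟩

theorem lbz_n : LbZ v0_fnl v0_fnr v0_dn := LbZ.of xl_i_n xl_o_n xl_d_n

end Pool.Agent.Strip051.LC.E1.V0
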