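import Pool.Agent.Strip051.LC.E1.V0.Bs
import Pool.Agent.Strip051.LC.E1.V0.Cert
import Pool.Agent.Strip051.LC.E1.V0.CertL
import Pool.Agent.Strip051.LC.E1.Ch.L4

/-! # Rests near the full period: the row between the vertical axis and `W` -/

set_option linter.unusedVariables false
set_option linter.unusedSimpArgs false

namespace Pool.Agent.Strip051.LC.E1

open Pool.Agent.Strip051.PB
open Pool.Agent.Strip051.LC.E1.Ch
open Pool.Agent.Strip051.LC.E1.V0

/-- V, 12 and 23 on `c1`, `w, z ≤ 0`, 13 in `[0, W]`, the far vertex -/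
theorem vu_0_far : ∀ r lam w z xi : ℝ, Dom .nn r lam w z → xi = E0.G.xi1 w r - E0.G.xi1 z r →
    0 ≤ xi → xi ≤ E0.G.xi1 (w + z) r →
    RowV .far .nn r lam w z xi 0 (G.C1d r lam w) (-G.C1d r lam z) (G.V0 xi r lam (w + z)) := by
  intro r lam w z xi D e_xi h1 h2
  have g := gf D e_xi h1
  obtain ⟨ka, kb⟩ : w ≤ 0 ∧ z ≤ 0 := D.ok
  refine charts x1f x2f (crd_nn D) D.r0 D.l0 ?_ ?_
  · intro e1 r1 E h W Wd Z Zd M Q N wd zd kw kwd kz kzd km kr ew ez hN hh
    have hw5 : -(w + z) ≤ 5 / 2 * lam := le5 D e1 (by show -(w + z) ≤ -(w + z); linarith)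
    have hum : Um Rf w z lam r := um_f hw5
    have hum0 : Um Rf 0 0 lam r := um_f (by have := D.l0; linarith)
    refine body_sound ?_ ?_ ?_ ?_ ?_ ?_ hh
    · exact fun c k s h0 => g.of_sk fun lev D' hl => dirT_sound kw kz km kr D' (fun _ => hum)
        hl h0
    · exact noF_sound
    · exact fun c k s h0 => g.of_sk fun lev D' hl => conT_sound kw kz kwd kzd km kr ew ez hN D'
        (cb_f D.r0 D.l0 D.e) (fun _ => hum) (fun _ => hum0) hl h0
    · intro _ j _ h0
      refine g.of_sk fun lev D' hl => ?_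
      subst e1
      have hB : LineZ Rf (w + z) 1 r := by
        have := lb_f lbz_f (w := -(w + z)) D.r0 r1
        rwa [neg_neg] at this
      exact lvT_sound kw kz km kr (fun e => absurd e Bool.false_ne_true) (by linarith) D' hB hum
        (by show Fn3.v lnz _ _ _ = _; rw [lnz_val]) hl h0
    · exact exits_sound (fun h0 => g.of_ex fun D' => exT_sound kw kz km kr D' h0)
        (fun h0 => absurd h0 Bool.false_ne_true) (fun h0 => g.of_ex fun D' => cexT_sound kw
        kz kwd kzd km kr ew ez hN D' (cb_f D.r0 D.l0 D.e).u h0)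
    · exact noF_sound
  · intro E h W Wd Z Zd M Q N wd zd kw kwd kz kzd km kr ew ez hN hh
    refine body_sound ?_ ?_ ?_ ?_ ?_ ?_ hh
    · exact fun c k s h0 => g.of_sk fun lev D' hl => dirT_sound kw kz km kr D' (fun e => absurd e
        Bool.false_ne_true) hl h0
    · exact noF_sound
    · exact noF_sound
    · exact noF_sound
    · exact exits_sound (fun h0 => g.of_ex fun D' => exT_sound kw kz km kr D' h0)
        (fun h0 => absurd h0 Bool.false_ne_true) (fun h0 => absurd h0 Bool.false_ne_true)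
    · exact noF_sound

/-- V, 12 and 23 on `c1`, `w, z ≤ 0`, 13 in `[0, W]`, the near vertex -/
theorem vu_0_near : ∀ r lam w z xi : ℝ, Dom .nn r lam w z → xi = E0.G.xi1 w r - E0.G.xi1 z r →
    0 ≤ xi → xi ≤ E0.G.xi1 (w + z) r →
    RowV .near .nn r lam w z xi 0 (G.C1d r lam w) (-G.C1d r lam z) (G.V0 xi r lam (w + z)) := by
  intro r lam w z xi D e_xi h1 h2
  have g := gn D e_xi h1
  obtain ⟨ka, kb⟩ : w ≤ 0 ∧ z ≤ 0 := D.ok
  refine charts x1n x2n (crd_nn D) D.r0 D.l0 ?_ ?_
  · intro e1 r1 E h W Wd Z Zd M Q N wd zd kw kwd kz kzd km kr ew ez hN hh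
    have hw5 : -(w + z) ≤ 5 / 2 * lam := le5 D e1 (by show -(w + z) ≤ -(w + z); linarith)
    have hum : Um Rn w z lam r := um_n hw5
    have hum0 : Um Rn 0 0 lam r := um_n (by have := D.l0; linarith)
    refine body_sound ?_ ?_ ?_ ?_ ?_ ?_ hh
    · exact fun c k s h0 => g.of_sk fun lev D' hl => dirT_sound kw kz km kr D' (fun _ => hum)
        hl h0
    · exact noF_sound
    · exact fun c k s h0 => g.of_sk fun lev D' hl => conT_sound kw kz kwd kzd km kr ew ez hN D'
        (cb_n D.r0 D.l0 D.e) (fun _ => hum) (fun _ => hum0) hl h0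
    · intro _ j _ h0
      refine g.of_sk fun lev D' hl => ?_
      subst e1
      have hB : LineZ Rn (w + z) 1 r := by
        have := lb_n lbz_n (w := -(w + z)) D.r0 r1
        rwa [neg_neg] at this
      exact lvT_sound kw kz km kr (fun e => absurd e Bool.false_ne_true) (by linarith) D' hB hum
        (by show Fn3.v lnz _ _ _ = _; rw [lnz_val]) hl h0
    · exact exits_sound (fun h0 => g.of_ex fun D' => exT_sound kw kz km kr D' h0)
        (fun h0 => absurd h0 Bool.false_ne_true) (fun h0 => g.of_ex fun D' => cexT_sound kw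
        kz kwd kzd km kr ew ez hN D' (cb_n D.r0 D.l0 D.e).u h0)
    · exact noF_sound
  · intro E h W Wd Z Zd M Q N wd zd kw kwd kz kzd km kr ew ez hN hh
    refine body_sound ?_ ?_ ?_ ?_ ?_ ?_ hh
    · exact fun c k s h0 => g.of_sk fun lev D' hl => dirT_sound kw kz km kr D' (fun e => absurd e
        Bool.false_ne_true) hl h0
    · exact noF_sound
    · exact noF_sound
    · exact noF_sound
    · exact exits_sound (fun h0 => g.of_ex fun D' => exT_sound kw kz km kr D' h0)
        (fun h0 => absurd h0 Bool.false_ne_true) (fun h0 => absurd h0 Bool.false_ne_true)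
    · exact noF_sound

end Pool.Agent.Strip051.LC.E1
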