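import Pool.Agent.Strip051.LC.E1.V0.Fn

/-! # Rests near the full period: the functions of the line `z = 0` -/

set_option linter.unusedVariables false

namespace Pool.Agent.Strip051.LC.E1.V0

open Pool.Agent.Strip051.PB
open Pool.Agent.Strip051.LC.E1.Ch

attribute [local irreducible] padd psub pneg pmul psq pinv psqrt psqrtg pabs pps pmax pmin pphi plam
  pcase phf pnat prat pscale pnorm pdc pnc pone ppos pnn Enc

noncomputable def v0_ck_7 : Fn2 := ⟨_, _, fun h1 h2 => (enc_scale 559209 200000 (enc_sqrt (enc_pnc _ 3)))⟩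
noncomputable def v0_ck_12 : Fn2 := ⟨_, _, fun h1 h2 => (enc_mul (v0_ck_7.enc h1 h2) (enc_norm (enc_add (enc_rat _ 1 2) (c1f.enc h1 h2))))⟩
noncomputable def v0_ck : Fn2 := ⟨_, _, fun h1 h2 => (enc_norm (enc_sub (enc_scale 3 4 (enc_sub (enc_mul (qdf.enc h1 h2) (enc_norm (enc_add (enc_pnc _ 1) (enc_mul h2 (enc_norm (enc_sub (prf.enc h2) (enc_mul (v0_ck_7.enc h1 h2) (enc_norm (enc_sub (enc_subn 1 (swf.enc h1 h2)) (eh.enc h2)))))))))) (enc_mul (ig.enc h2) (enc_norm (enc_mul h2 (enc_norm (v0_ck_12.enc h1 h2))))))) (enc_half (v0_ck_12.enc h1 h2))))⟩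
noncomputable def v0_ekl : Fn2 := ⟨_, _, fun h1 h2 => (enc_norm (enc_sub (enc_add (enc_rat _ 2633 2500) (enc_nat 2 (enc_subr 1377 2500 (vw3.enc h2)))) (v0_ck.enc h1 h2)))⟩
noncomputable def v0_ffl : Fn2 := ⟨_, _, fun h1 h2 => (enc_norm (enc_add (bdf.enc h1 h2) (enc_mul (kx.enc h2) (enc_norm (enc_sub (enc_mul (v0_ekl.enc h1 h2) (enc_norm (enc_sub (enc_pnc _ 1) (enc_mul h2 h1)))) (enc_mul h2 (dwf.enc h2)))))))⟩
noncomputable def v0_ekr : Fn2 := ⟨_, _, fun h1 h2 => (enc_norm (enc_sub (enc_sub (enc_rat _ 1377 2500) (enc_scale 2 3 (enc_subr 1377 2500 (vw3.enc h2)))) (v0_ck.enc h1 h2)))⟩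
noncomputable def v0_ffr : Fn2 := ⟨_, _, fun h1 h2 => (enc_norm (enc_add (bdf.enc h1 h2) (enc_mul (kx.enc h2) (enc_norm (enc_sub (enc_mul (v0_ekr.enc h1 h2) (enc_norm (enc_sub (enc_pnc _ 1) (enc_mul h2 h1)))) (enc_mul h2 (dwf.enc h2)))))))⟩
noncomputable def v0_df_4 : Fn2 := ⟨_, _, fun h1 h2 => (enc_neg h1)⟩
noncomputable def v0_df : Fn2 := ⟨_, _, fun h1 h2 => (enc_norm (enc_add (enc_sub (enc_mul (enc_half h1) (qo.enc h2)) (enc_half (enc_add (enc_sq (xw0p.enc h1 h2)) (enc_scale 3 4 (enc_sq h1))))) (enc_mul (kx.enc h2) (enc_norm (enc_mul (enc_norm (enc_subn 1 h1)) (enc_norm (enc_mul (enc_norm (enc_sub (w3k.enc (v0_df_4.enc h1 h2) (enc_pnc _ 1) h2 h2) (k1m.enc (v0_df_4.enc h1 h2) (enc_pnc _ 1) h2 h2))) (enc_norm (enc_sub (enc_pnc _ 1) (enc_mul h2 h1))))))))))⟩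
noncomputable def v0_cb_8 : Fn2 := ⟨_, _, fun h1 h2 => (enc_mul (u3b.enc h2) (enc_norm (enc_add (enc_rat _ 1 2) (c1f.enc h1 h2))))⟩
noncomputable def v0_cb : Fn2 := ⟨_, _, fun h1 h2 => (enc_norm (enc_add (enc_half (v0_cb_8.enc h1 h2)) (enc_scale 3 4 (enc_add (enc_mul (qdf.enc h1 h2) (enc_norm (enc_add (b0f.enc h2) (enc_mul h2 (enc_norm (enc_add (pbf.enc h2) (enc_mul (u3b.enc h2) (enc_norm (enc_sub (enc_subn 1 (swf.enc h1 h2)) (eh.enc h2)))))))))) (enc_mul (ig.enc h2) (enc_norm (enc_mul h2 (enc_norm (v0_cb_8.enc h1 h2)))))))))⟩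
noncomputable def v0_ebl : Fn2 := ⟨_, _, fun h1 h2 => (enc_norm (enc_sub (enc_rat _ 3097 2500) (v0_cb.enc h1 h2)))⟩
noncomputable def v0_fnl : Fn2 := ⟨_, _, fun h1 h2 => (enc_norm (enc_add (bdn.enc h1 h2) (enc_mul (kx.enc h2) (enc_norm (enc_sub (enc_mul (enc_norm (enc_add (enc_mul (n1f.enc h2) (v0_ekl.enc h1 h2)) (enc_mul (mu.enc h2) (v0_ebl.enc h1 h2)))) (enc_norm (enc_sub (enc_pnc _ 1) (enc_mul h2 h1)))) (enc_mul h2 (enc_norm (enc_mul (n1f.enc h2) (dwf.enc h2)))))))))⟩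
noncomputable def v0_ebr : Fn2 := ⟨_, _, fun h1 h2 => (enc_norm (enc_sub (enc_rat _ 79 40) (v0_cb.enc h1 h2)))⟩
noncomputable def v0_fnr : Fn2 := ⟨_, _, fun h1 h2 => (enc_norm (enc_add (bdn.enc h1 h2) (enc_mul (kx.enc h2) (enc_norm (enc_sub (enc_mul (enc_norm (enc_add (enc_mul (n1f.enc h2) (v0_ekr.enc h1 h2)) (enc_mul (mu.enc h2) (v0_ebr.enc h1 h2)))) (enc_norm (enc_sub (enc_pnc _ 1) (enc_mul h2 h1)))) (enc_mul h2 (enc_norm (enc_mul (n1f.enc h2) (dwf.enc h2)))))))))⟩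
noncomputable def v0_dn_4 : Fn2 := ⟨_, _, fun h1 h2 => (enc_neg h1)⟩
noncomputable def v0_dn : Fn2 := ⟨_, _, fun h1 h2 => (enc_norm (enc_add (enc_mul (n1f.enc h2) (enc_norm (enc_sub (enc_mul (enc_half h1) (qo.enc h2)) (enc_half (enc_add (enc_sq (xw0p.enc h1 h2)) (enc_scale 3 4 (enc_sq h1))))))) (enc_mul (kx.enc h2) (enc_norm (enc_mul (enc_norm (enc_subn 1 h1)) (enc_norm (enc_mul (enc_norm (enc_sub (nkf.enc h2 (w3k.enc (v0_dn_4.enc h1 h2) (enc_pnc _ 1) h2 h2) (v0_w3b.enc (v0_dn_4.enc h1 h2) (enc_pnc _ 1) h2 h2)) (nkf.enc h2 (k1m.enc (v0_dn_4.enc h1 h2) (enc_pnc _ 1) h2 h2) (b1m.enc (v0_dn_4.enc h1 h2) (enc_pnc _ 1) h2 h2)))) (enc_norm (enc_sub (enc_pnc _ 1) (enc_mul h2 h1))))))))))⟩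

end Pool.Agent.Strip051.LC.E1.V0
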