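import Pool.Agent.Strip051.LC.E1.V0.Ln
import Pool.Agent.Strip051.LC.E1.V0.Fl
import Pool.Agent.Strip051.LC.E1.Ch.Lb2

/-! # Rests near the full period: the row between the vertical axis and `W`, the line `z = 0` -/

set_option linter.unusedVariables false
set_option linter.unusedSimpArgs false

namespace Pool.Agent.Strip051.LC.E1.V0

open Pool.Agent.Strip051.PB
open Pool.Agent.Strip051.LC.E1.Ch
open Pool.Agent.Strip051.LC.E0.Ch (onCell Tree)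
open Pool.Agent.Strip051.LC.E1.G (hg)

/-- The inequalities at the line. -/
structure LbZ (fl fr ld : Fn2) : Prop where
  i : ∀ {w r : ℝ}, 17 / 20 ≤ w → w ≤ 1 → 0 ≤ r → r ≤ 1 / 40 → 0 ≤ fl.v w r
  o : ∀ {w r : ℝ}, 1 ≤ w → w ≤ 11 / 10 → 0 ≤ r → r ≤ 1 / 40 → 0 ≤ fr.v w r
  d : ∀ {w r : ℝ}, 3 / 5 ≤ w → w ≤ 17 / 20 → 0 ≤ r → r ≤ 1 / 40 → 0 ≤ ld.v w r

/-- From the trees. -/
theorem LbZ.of {fl fr ld : Fn2}
    (ti : Tree 912680550 161061274 0 0 0 26843546 (tnn fl))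
    (tp : Tree 1073741824 107374183 0 0 0 26843546 (tnn fr))
    (td : Tree 644245094 268435457 0 0 0 26843546 (tnn ld)) : LbZ fl fr ld :=
  ⟨tnn_sound ti (by unfold S; norm_num) (by unfold S; norm_num),
    tnn_sound tp (by unfold S; norm_num) (by unfold S; norm_num),
    tnn_sound td (by unfold S; norm_num) (by unfold S; norm_num)⟩

namespace Lz

/-- The slope of the kernel of the unit circle. -/
noncomputable def cK (w r : ℝ) : ℝ :=
  G.u3 1 (-(359209 / 100000)) * (1 / 2 + Lb.c1 w r) / 2 + 3 / 4 * (Lb.qd w r * (1 + r * (G.pK r +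
      G.u3 1 (-(359209 / 100000)) * (w / 2 + E0.G.xi1 (-w) r - 1 - G.eh r))) +
      G.ig r * (r * (G.u3 1 (-(359209 / 100000)) * (1 / 2 + Lb.c1 w r))))

noncomputable def cB (w r : ℝ) : ℝ :=
  G.u3 (G.B0 r) (-(280683 / 50000)) * (1 / 2 + Lb.c1 w r) / 2 + 3 / 4 * (Lb.qd w r * (G.B0 r + r *
      (G.pB r +
      G.u3 (G.B0 r) (-(280683 / 50000)) * (w / 2 + E0.G.xi1 (-w) r - 1 - G.eh r))) +
      G.ig r * (r * (G.u3 (G.B0 r) (-(280683 / 50000)) * (1 / 2 + Lb.c1 w r))))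

/-- The slopes of `W`. -/
noncomputable def sKl (r : ℝ) : ℝ := 1377 / 2500 + 2 * (G.vW3 r - 1377 / 2500) - 2 * (-(157 / 625))
noncomputable def sKr (r : ℝ) : ℝ := 1377 / 2500 - 2 / 3 * (G.vW3 r - 1377 / 2500)
noncomputable def sBl : ℝ := 237 / 200 + 2 * (0 - 237 / 200) - 2 * (-(12119 / 10000))
noncomputable def sBr : ℝ := 237 / 200 - 2 / 3 * (0 - 237 / 200)

end Lz

theorem ck_val (w r : ℝ) : v0_ck.v w r = Lz.cK w r := by
  simp only [v0_ck, v0_ck_7, v0_ck_12, c1f_val, qdf_val, prf_val, swf_val, eh_val, ig_val]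
  unfold Lz.cK G.u3
  push_cast
  ring

theorem cb_val (w r : ℝ) : v0_cb.v w r = Lz.cB w r := by
  simp only [v0_cb, v0_cb_8, u3b, c1f_val, qdf_val, pbf_val, swf_val, eh_val, ig_val, b0f_val]
  unfold Lz.cB G.u3
  push_cast
  ring

theorem ekl_val (w r : ℝ) : v0_ekl.v w r = Lz.sKl r - Lz.cK w r := by
  simp only [v0_ekl, ck_val, vw3_val]
  unfold Lz.sKl
  push_cast
  ring

theorem ekr_val (w r : ℝ) : v0_ekr.v w r = Lz.sKr r - Lz.cK w r := by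
  simp only [v0_ekr, ck_val, vw3_val]
  unfold Lz.sKr
  push_cast
  ring

theorem ebl_val (w r : ℝ) : v0_ebl.v w r = Lz.sBl - Lz.cB w r := by
  simp only [v0_ebl, cb_val]
  unfold Lz.sBl
  push_cast
  ring

theorem ebr_val (w r : ℝ) : v0_ebr.v w r = Lz.sBr - Lz.cB w r := by
  simp only [v0_ebr, cb_val]
  unfold Lz.sBr
  push_cast
  ring

theorem ffl_val (w r : ℝ) : v0_ffl.v w r = Lb.ff (Lz.sKl r - Lz.cK w r) w r := by
  simp only [v0_ffl, bdf_val, ekl_val, kx_val, dwf_val]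
  unfold Lb.ff
  push_cast
  ring

theorem ffr_val (w r : ℝ) : v0_ffr.v w r = Lb.ff (Lz.sKr r - Lz.cK w r) w r := by
  simp only [v0_ffr, bdf_val, ekr_val, kx_val, dwf_val]
  unfold Lb.ff
  push_cast
  ring

theorem fnl_val (w r : ℝ) : v0_fnl.v w r =
    Lb.fn (Lz.sKl r - Lz.cK w r) (Lz.sBl - Lz.cB w r) w r := by
  simp only [v0_fnl, bdn_val, ekl_val, ebl_val, kx_val, dwf_val, n1f_val, mu_val']
  unfold Lb.fn
  push_cast
  ring

theorem fnr_val (w r : ℝ) : v0_fnr.v w r =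
    Lb.fn (Lz.sKr r - Lz.cK w r) (Lz.sBr - Lz.cB w r) w r := by
  simp only [v0_fnr, bdn_val, ekr_val, ebr_val, kx_val, dwf_val, n1f_val, mu_val']
  unfold Lb.fn
  push_cast
  ring

/-! ### The kernels -/

section

variable {w r : ℝ} (r0 : 0 < r) (r1 : r ≤ 1 / 40) (w0 : 3 / 5 ≤ w) (w1 : w ≤ 11 / 10)

theorem wK3_l (h : 1 / 2 ≤ w) (h' : w ≤ 1) : G.wK3 r 1 w = G.vW3 r + Lz.sKl r * (w - 1) := by
  unfold G.wK3 G.tl Lz.sKl
  rw [hg_ge (by linarith : 0 ≤ w - 1 / 2), hg_le (by linarith : w - 1 ≤ 0),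
    hg_le (by linarith : w - 5 / 2 * 1 ≤ 0)]
  simp only [one_mul]
  ring

theorem wK3_r (h : 1 ≤ w) (h' : w ≤ 5 / 2) : G.wK3 r 1 w = G.vW3 r + Lz.sKr r * (w - 1) := by
  unfold G.wK3 G.tl Lz.sKr
  rw [hg_ge (by linarith : 0 ≤ w - 1 / 2), hg_ge (by linarith : 0 ≤ w - 1),
    hg_le (by linarith : w - 5 / 2 * 1 ≤ 0)]
  simp only [one_mul]
  ring

theorem wB3_l (h : 1 / 2 ≤ w) (h' : w ≤ 1) : G.wB3 r 1 w = Lz.sBl * (w - 1) := by
  unfold G.wB3 G.tl Lz.sBl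
  rw [hg_ge (by linarith : 0 ≤ w - 1 / 2), hg_le (by linarith : w - 1 ≤ 0),
    hg_le (by linarith : w - 5 / 2 * 1 ≤ 0)]
  ring

theorem wB3_r (h : 1 ≤ w) (h' : w ≤ 5 / 2) : G.wB3 r 1 w = Lz.sBr * (w - 1) := by
  unfold G.wB3 G.tl Lz.sBr
  rw [hg_ge (by linarith : 0 ≤ w - 1 / 2), hg_ge (by linarith : 0 ≤ w - 1),
    hg_le (by linarith : w - 5 / 2 * 1 ≤ 0)]
  ring

theorem W3_k : (G.W3 r 1 (-w)).k = G.wK3 r 1 w := by
  unfold G.W3
  simp only [neg_neg]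

theorem W3_b : (G.W3 r 1 (-w)).b = G.wB3 r 1 w := by
  unfold G.W3
  simp only [neg_neg]

include r0 r1

theorem pin3_K : G.vW3 r - (G.pK r / 2 + 3 / 4 * (G.ig r * (1 + r * G.pK r))) = G.dW r := by
  have h1 := Lb.half_eq r0 r1
  have he : G.eh r + 1 ≠ 0 := by
    have := eh_pos' r0 (by linarith : r < 1)
    linarith
  have h5 : (G.q1 r / 2 + G.pK r) / (G.eh r + 1) = G.pK r / 2 +
      3 / 4 * (G.ig r * (1 + r * G.pK r)) := by
    rw [div_eq_iff he]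
    unfold G.q1
    linear_combination (-G.pK r) * h1
  unfold G.vW3
  rw [h5]
  ring

theorem pin3_B : G.pB r / 2 + 3 / 4 * (G.ig r * (G.B0 r + r * G.pB r)) = 0 := by
  have h1 := Lb.half_eq r0 r1
  unfold G.pB G.q1
  linear_combination (-(3 / 4) * G.B0 r * G.ig r) * h1

include w0 w1

theorem dK3_l (hw : 17 / 20 ≤ w) (hw' : w ≤ 1) : (G.W3 r 1 (-w)).k - (G.C1d r 1 (-w)).k =
    G.dW r + (w - 1) * (Lz.sKl r - Lz.cK w r) := by
  have h1 := kU_m r0 r1 (Lb.s_ge r0 r1 w0 w1 hw) (Lb.s_le r0 r1 w0 w1)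
  have h2 := Lb.kdiff r0 r1 w0 w1 1 (G.pK r) (G.u3 1 (-(359209 / 100000)))
  have h4 := pin3_K r0 r1
  rw [C1d_k, h1, W3_k, wK3_l (by linarith) hw']
  unfold Lz.cK
  linear_combination -h2 + h4

theorem dK3_r (hw : 1 ≤ w) : (G.W3 r 1 (-w)).k - (G.C1d r 1 (-w)).k =
    G.dW r + (w - 1) * (Lz.sKr r - Lz.cK w r) := by
  have h1 := kU_m r0 r1 (Lb.s_ge r0 r1 w0 w1 (by linarith)) (Lb.s_le r0 r1 w0 w1)
  have h2 := Lb.kdiff r0 r1 w0 w1 1 (G.pK r) (G.u3 1 (-(359209 / 100000)))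
  have h4 := pin3_K r0 r1
  rw [C1d_k, h1, W3_k, wK3_r hw (by linarith)]
  unfold Lz.cK
  linear_combination -h2 + h4

theorem dB3_l (hw : 17 / 20 ≤ w) (hw' : w ≤ 1) : (G.W3 r 1 (-w)).b - (G.C1d r 1 (-w)).b =
    (w - 1) * (Lz.sBl - Lz.cB w r) := by
  have h1 := bU_m r0 r1 (Lb.s_ge r0 r1 w0 w1 hw) (Lb.s_le r0 r1 w0 w1)
  have h2 := Lb.kdiff r0 r1 w0 w1 (G.B0 r) (G.pB r) (G.u3 (G.B0 r) (-(280683 / 50000)))
  have h4 := pin3_B r0 r1
  rw [C1d_b, h1, W3_b, wB3_l (by linarith) hw']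
  unfold Lz.cB
  linear_combination -h2 - h4

theorem dB3_r (hw : 1 ≤ w) : (G.W3 r 1 (-w)).b - (G.C1d r 1 (-w)).b =
    (w - 1) * (Lz.sBr - Lz.cB w r) := by
  have h1 := bU_m r0 r1 (Lb.s_ge r0 r1 w0 w1 (by linarith)) (Lb.s_le r0 r1 w0 w1)
  have h2 := Lb.kdiff r0 r1 w0 w1 (G.B0 r) (G.pB r) (G.u3 (G.B0 r) (-(280683 / 50000)))
  have h4 := pin3_B r0 r1
  rw [C1d_b, h1, W3_b, wB3_r hw (by linarith)]
  unfold Lz.cB
  linear_combination -h2 - h4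

end

/-- What is known at the line, from the values. -/
theorem lineZ_of {R : RowF} {w r nf bs ds n1 mu : ℝ} (r0 : 0 < r) (r1 : r ≤ 1 / 40)
    (hL : R.L (-w) 0 = w)
    (hNF : R.NF (-w) 0 1 r = nf) (hGM : R.GM (-w) 0 1 r = 0) (hBS : R.BS (-w) 0 1 r = bs)
    (hDS : R.DS (-w) 0 1 r = ds) (h1 : 3 / 5 ≤ w → w ≤ 11 / 10 → R.V1B (-w) 0 1 r = 0)
    (h2 : 3 / 5 ≤ w → w ≤ 11 / 10 → R.V2B (-w) 0 1 r = 0)
    (hbn : nf * G.q1 r + bs = n1 * (w / 2 * G.q1 r - (E0.G.xi1 (-w) r ^ 2 + 3 / 4 * w ^ 2) / 2))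
    (hds : ds = (n1 * ((G.W3 r 1 (-w)).k - (G.C1d r 1 (-w)).k) + mu * ((G.W3 r 1 (-w)).b -
      (G.C1d r 1 (-w)).b)) * (1 - r * w))
    (ci : 17 / 20 ≤ w → w ≤ 1 →
      0 ≤ Lb.fg n1 mu (Lz.sKl r - Lz.cK w r) (Lz.sBl - Lz.cB w r) w r)
    (co : 1 ≤ w → w ≤ 11 / 10 →
      0 ≤ Lb.fg n1 mu (Lz.sKr r - Lz.cK w r) (Lz.sBr - Lz.cB w r) w r)
    (cd : 3 / 5 ≤ w → w ≤ 17 / 20 → 0 ≤ n1 * (w / 2 * G.q1 r - (E0.G.xi1 (-w) r ^ 2 +
      3 / 4 * w ^ 2) / 2) + G.eh r / (1 - r) * ((w - 1) * ((n1 * ((G.W3 r 1 (-w)).k -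
      (G.C1d r 1 (-w)).k) + mu * ((G.W3 r 1 (-w)).b - (G.C1d r 1 (-w)).b)) * (1 - r * w)))) :
    LineZ R (-w) 1 r := by
  have hBN : R.BN (-w) 0 1 r = n1 * (w / 2 * G.q1 r - (E0.G.xi1 (-w) r ^ 2 +
      3 / 4 * w ^ 2) / 2) := by
    unfold RowF.BN
    rw [bnf_val, hNF, hGM, hBS]
    rw [one_mul]
    linear_combination hbn
  have e1 : lnf.v (1 * r) 1 (R.L (-w) 0) (R.BN (-w) 0 1 r) (R.DS (-w) 0 1 r) =
      n1 * (w / 2 * G.q1 r - (E0.G.xi1 (-w) r ^ 2 + 3 / 4 * w ^ 2) / 2) -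
        G.eh r / (1 - r) * (ds * (1 - w)) := by
    rw [lnf_val, hL, hBN, hDS, one_mul]
  have key : 3 / 5 ≤ w → w ≤ 11 / 10 → 0 ≤ n1 * (w / 2 * G.q1 r - (E0.G.xi1 (-w) r ^ 2 +
      3 / 4 * w ^ 2) / 2) - G.eh r / (1 - r) * (ds * (1 - w)) := by
    intro w0 w1
    have hbd := Lb.bd_eq r0 r1 w0 w1
    have hk : G.eh r / (1 - r) * (1 - r) = G.eh r := div_mul_cancel₀ _ (by linarith)
    have hb : n1 * (w / 2 * G.q1 r - (E0.G.xi1 (-w) r ^ 2 + 3 / 4 * w ^ 2) / 2) =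
        n1 * (-((w - 1) * (G.eh r * G.dW r)) + (w - 1) ^ 2 * Lb.bd w r) := by rw [hbd]
    rcases le_total w (17 / 20) with h | h
    · have := cd w0 h
      rw [← hds] at this
      linarith
    · rcases le_total w 1 with h' | h'
      · have hd : ds = (n1 * (G.dW r + (w - 1) * (Lz.sKl r - Lz.cK w r)) + mu * ((w - 1) *
            (Lz.sBl - Lz.cB w r))) * (1 - r * w) := by
          rw [hds, dK3_l r0 r1 w0 w1 h h', dB3_l r0 r1 w0 w1 h h']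
        rw [ln_i hk hb hd]
        exact mul_nonneg (sq_nonneg _) (ci h h')
      · have hd : ds = (n1 * (G.dW r + (w - 1) * (Lz.sKr r - Lz.cK w r)) + mu * ((w - 1) *
            (Lz.sBr - Lz.cB w r))) * (1 - r * w) := by
          rw [hds, dK3_r r0 r1 w0 w1 h', dB3_r r0 r1 w0 w1 h']
        rw [ln_i hk hb hd]
        exact mul_nonneg (sq_nonneg _) (co h' w1)
  refine ⟨?_, ?_⟩
  · intro a b
    rw [neg_neg] at a b
    rw [e1, h1 a b, add_zero]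
    exact key a b
  · intro a b
    rw [neg_neg] at a b
    rw [e1, h2 a b, add_zero]
    exact key a b

theorem xi1_ne {w r : ℝ} (r0 : 0 < r) (r1 : r ≤ 1 / 40) (w0 : 3 / 5 ≤ w) (w1 : w ≤ 11 / 10) :
    E0.G.xi1 (-w) r ≠ 0 := by
  have h2 := cc1_ge (Lb.hc r0 r1 w0 w1)
  have h3 : E0.G.xi1 (-w) r = 3 / 4 * w * (2 - r * w) / (1 / 2 + E0.G.cc1 (-w) r) := by
    unfold E0.G.xi1
    ring
  have : 0 < 2 - r * w := by nlinarith
  have h4 : 0 < 1 / 2 + E0.G.cc1 (-w) r := by linarith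
  rw [h3]
  positivity

theorem lb_f (hc : LbZ v0_ffl v0_ffr v0_df) {w r : ℝ} (r0 : 0 < r) (r1 : r ≤ 1 / 40) :
    LineZ Rf (-w) 1 r := by
  rcases lt_or_ge w (3 / 5) with hlt | w0
  · exact ⟨fun a _ => by linarith, fun a _ => by linarith⟩
  rcases lt_or_ge (11 / 10) w with hgt | w1
  · exact ⟨fun _ a => by linarith, fun _ a => by linarith⟩
  have H := Lb.hc r0 r1 w0 w1
  have x1 : 1 * r ≤ 1 / 40 := by linarith
  have hx := xi1_ne r0 r1 w0 w1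
  have hU : Rf.U (-w) 0 1 r = E0.G.xi1 (-w) r := by
    simp only [RowF.U, Rf, v0_u, xi1_val, xi1_0]
    ring
  have hL : Rf.L (-w) 0 = w := by
    show Fn3.v lnt _ _ _ = _
    rw [lnt_val]
    ring
  have k12 : Rf.K12 (-w) 0 1 r = (G.C1d r 1 (-w)).k := by
    unfold RowF.K12
    simp only [Rf, k1m_wp]
    rw [k1m_val H]
  have k23 : Rf.K23 (-w) 0 1 r = 0 := by
    unfold RowF.K23
    simp only [Rf, k1m_zn, k1m_0 r0 one_pos x1, neg_zero]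
  have k13 : Rf.K13 (-w) 0 1 r = (G.W3 r 1 (-w)).k := by
    unfold RowF.K13
    rw [hU]
    simp only [Rf, v0_k13, add_zero]
    rw [gk_val one_pos (by linarith), mul_div_cancel₀ _ hx]
  have b12 : Rf.B12 (-w) 0 1 r = 0 := by
    unfold RowF.B12
    simp only [Rf, l1m_wp]
    rw [l1m_val H, C1d_cB r0 r1 w0 w1]
  have b23 : Rf.B23 (-w) 0 1 r = 0 := by
    unfold RowF.B23
    simp only [Rf, l1m_zn, l1m_0 r0 one_pos x1, neg_zero]
  have b13 : Rf.B13 (-w) 0 1 r = 0 := by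
    unfold RowF.B13
    simp only [Rf, zr7]
    push_cast
    ring
  have hGM : Rf.GM (-w) 0 1 r = 0 := by
    unfold RowF.GM
    rw [k23]
    show Fn6.v gm1 _ _ _ _ _ _ = 0
    rw [gm1_val]
    ring
  have hNF : Rf.NF (-w) 0 1 r = w / 2 := by
    simp only [RowF.NF, Rf, v0_nff, add_zero]
    push_cast
    ring
  have hBS : Rf.BS (-w) 0 1 r = -((E0.G.xi1 (-w) r ^ 2 + 3 / 4 * w ^ 2) / 2) := by
    simp only [RowF.BS, Rf, v0_bsf, xi1_val, xi1_0, add_zero]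
    push_cast
    ring
  have hDS : Rf.DS (-w) 0 1 r = (1 * ((G.W3 r 1 (-w)).k - (G.C1d r 1 (-w)).k) + 0 * ((G.W3 r 1
      (-w)).b - (G.C1d r 1 (-w)).b)) * (1 - r * w) := by
    unfold RowF.DS RowF.DL
    rw [dsf_val, dln_val, shf_val, hL, k12, k23, k13]
    ring
  have v1 : Rf.V1B (-w) 0 1 r = 0 := by
    unfold RowF.V1B
    rw [b12, b23, b13]
    show Fn8.v vf1 _ _ _ _ _ _ _ _ = 0
    rw [vf1_val]
    ring
  have v2 : Rf.V2B (-w) 0 1 r = 0 := by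
    unfold RowF.V2B
    rw [b12, b23, b13]
    show Fn8.v vf2 _ _ _ _ _ _ _ _ = 0
    rw [vf2_val]
    ring
  refine lineZ_of (n1 := 1) (mu := 0) r0 r1 hL hNF hGM hBS hDS (fun _ _ => v1) (fun _ _ => v2)
      ?_ rfl ?_ ?_ ?_
  · ring
  · intro a b
    have h9 := hc.i a b r0.le r1
    rw [ffl_val] at h9
    unfold Lb.ff at h9
    unfold Lb.fg
    linarith
  · intro a b
    have h9 := hc.o a b r0.le r1
    rw [ffr_val] at h9
    unfold Lb.ff at h9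
    unfold Lb.fg
    linarith
  · intro a b
    have h9 := hc.d a b r0.le r1
    have e1 := k1m_val (m := 1) H
    have e2 := w3k_val (-w) 1 r
    rw [one_mul] at e1 e2
    rw [W3_k]
    simp only [v0_df, v0_df_4, xw0p_val, kx_val, qo_val] at h9
    push_cast at h9
    rw [e1, e2, neg_neg] at h9
    linarith

theorem lb_n (hc : LbZ v0_fnl v0_fnr v0_dn) {w r : ℝ} (r0 : 0 < r) (r1 : r ≤ 1 / 40) :
    LineZ Rn (-w) 1 r := by
  rcases lt_or_ge w (3 / 5) with hlt | w0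
  · exact ⟨fun a _ => by linarith, fun a _ => by linarith⟩
  rcases lt_or_ge (11 / 10) w with hgt | w1
  · exact ⟨fun _ a => by linarith, fun _ a => by linarith⟩
  have H := Lb.hc r0 r1 w0 w1
  have x1 : 1 * r ≤ 1 / 40 := by linarith
  have hx := xi1_ne r0 r1 w0 w1
  have hU : Rn.U (-w) 0 1 r = E0.G.xi1 (-w) r := by
    simp only [RowF.U, Rn, v0_u, xi1_val, xi1_0]
    ring
  have hL : Rn.L (-w) 0 = w := by
    show Fn3.v lnt _ _ _ = _
    rw [lnt_val]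
    ring
  have k12 : Rn.K12 (-w) 0 1 r = (1 + G.LAM r * G.mu r) * (G.C1d r 1 (-w)).k +
      G.mu r * (G.C1d r 1 (-w)).b := by
    unfold RowF.K12
    simp only [Rn, nk1m_wp, k1m_wp, b1m_wp, nkf_val]
    rw [k1m_val H, b1m_val H]
    simp only [one_mul]
  have k23 : Rn.K23 (-w) 0 1 r = 0 := by
    unfold RowF.K23
    simp only [Rn, nk1m_zn, k1m_zn, b1m_zn, nkf_val, k1m_0 r0 one_pos x1, b1m_0 r0 one_pos x1]
    ring
  have k13 : Rn.K13 (-w) 0 1 r = (1 + G.LAM r * G.mu r) * (G.W3 r 1 (-w)).k +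
      G.mu r * (G.W3 r 1 (-w)).b := by
    unfold RowF.K13
    rw [hU]
    simp only [Rn, v0_nk13, v0_k13, v0_b13, nkf_val, add_zero]
    rw [gk_val one_pos (by linarith), gb_val one_pos (by linarith), mul_div_cancel₀ _ hx,
      mul_div_cancel₀ _ hx]
    simp only [one_mul]
  have b12 : Rn.B12 (-w) 0 1 r = 0 := by
    unfold RowF.B12
    simp only [Rn, l1m_wp]
    rw [l1m_val H, C1d_cB r0 r1 w0 w1]
  have b23 : Rn.B23 (-w) 0 1 r = 0 := by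
    unfold RowF.B23
    simp only [Rn, l1m_zn, l1m_0 r0 one_pos x1, neg_zero]
  have b13 : Rn.B13 (-w) 0 1 r = 0 := by
    unfold RowF.B13
    simp only [Rn, zr7]
    push_cast
    ring
  have hGM : Rn.GM (-w) 0 1 r = 0 := by
    unfold RowF.GM
    rw [k23]
    show Fn6.v gm1 _ _ _ _ _ _ = 0
    rw [gm1_val]
    ring
  have hNF : Rn.NF (-w) 0 1 r = w / 2 * G.be r := by
    simp only [RowF.NF, Rn, v0_nfn, bef_val, add_zero]
    simp only [one_mul]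
    push_cast
    ring
  have hBS : Rn.BS (-w) 0 1 r = (1 + G.LAM r * G.mu r) * -((E0.G.xi1 (-w) r ^ 2 + 3 / 4 *
      w ^ 2) / 2) - G.mu r * G.LAM r * (G.q1 r / (2 * G.eh r)) * (w / 2) := by
    simp only [RowF.BS, Rn, v0_bsn, xi1_val, xi1_0, add_zero, n1f_val, lmf_val, mu_val', qo_val,
      eh_val, bef_val]
    simp only [one_mul]
    push_cast
    ring
  have hDS : Rn.DS (-w) 0 1 r = ((1 + G.LAM r * G.mu r) * ((G.W3 r 1 (-w)).k - (G.C1d r 1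
      (-w)).k) + G.mu r * ((G.W3 r 1 (-w)).b - (G.C1d r 1 (-w)).b)) * (1 - r * w) := by
    unfold RowF.DS RowF.DL
    rw [dsf_val, dln_val, shf_val, hL, k12, k23, k13]
    ring
  have v1 : Rn.V1B (-w) 0 1 r = 0 := by
    unfold RowF.V1B
    rw [b12, b23, b13]
    show Fn8.v mv1 _ _ _ _ _ _ _ _ = 0
    rw [mv1_val]
    ring
  have v2 : Rn.V2B (-w) 0 1 r = 0 := by
    unfold RowF.V2B
    rw [b12, b23, b13]
    show Fn8.v mv2 _ _ _ _ _ _ _ _ = 0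
    rw [mv2_val]
    ring
  refine lineZ_of (n1 := (1 + G.LAM r * G.mu r)) (mu := G.mu r) r0 r1 hL hNF hGM hBS hDS
      (fun _ _ => v1) (fun _ _ => v2) ?_ rfl ?_ ?_ ?_
  · unfold G.be G.B0
    ring
  · intro a b
    have h9 := hc.i a b r0.le r1
    rw [fnl_val] at h9
    unfold Lb.fn at h9
    unfold Lb.fg
    linarith
  · intro a b
    have h9 := hc.o a b r0.le r1
    rw [fnr_val] at h9
    unfold Lb.fn at h9
    unfold Lb.fg
    linarith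
  · intro a b
    have h9 := hc.d a b r0.le r1
    have e1 := k1m_val (m := 1) H
    have e2 := w3k_val (-w) 1 r
    have e3 := b1m_val (m := 1) H
    have e4 := w3b_val (-w) 1 r
    rw [one_mul] at e1 e2 e3 e4
    rw [W3_k, W3_b]
    simp only [v0_dn, v0_dn_4, xw0p_val, kx_val, qo_val, nkf_val, n1f_val] at h9
    push_cast at h9
    rw [e1, e2, e3, e4, neg_neg] at h9
    linarith

end Pool.Agent.Strip051.LC.E1.V0
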