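import Pool.Agent.Strip051.LC.E1.V0.Lz
import Pool.Agent.Strip051.LC.E1.Ch.Sb

/-! # Rests near the full period: the row between the vertical axis and `W`, the bases -/

set_option linter.unusedVariables false
set_option linter.unusedSimpArgs false

namespace Pool.Agent.Strip051.LC.E1.V0

open Pool.Agent.Strip051.PB
open Pool.Agent.Strip051.LC.E1.Ch

theorem cb_f {m r : ℝ} (r0 : 0 < r) (m0 : 0 < m) (x1 : m * r ≤ 1 / 40) : SBase Rf 0 0 m r 0 := by
  have hU : Rf.U 0 0 m r = 0 := by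
    simp only [RowF.U, Rf, v0_u, xi1_val, xi1_0, sub_zero]
  have k12 : Rf.K12 0 0 m r = 0 := by
    unfold RowF.K12
    simp only [Rf, k1m_wp, k1m_0 r0 m0 x1]
  have k23 : Rf.K23 0 0 m r = 0 := by
    unfold RowF.K23
    simp only [Rf, k1m_zn, k1m_0 r0 m0 x1, neg_zero]
  have k13 : Rf.K13 0 0 m r = 0 := by
    unfold RowF.K13
    rw [hU]
    simp only [Rf, v0_k13, zero_mul]
  have a12 : Rf.A12 0 0 m r = 0 := by
    unfold RowF.A12
    simp only [Rf, zr7]
    push_cast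
    ring
  have a23 : Rf.A23 0 0 m r = 0 := by
    unfold RowF.A23
    simp only [Rf, zr7]
    push_cast
    ring
  have a13 : Rf.A13 0 0 m r = 0 := by
    unfold RowF.A13
    rw [hU]
    simp only [Rf, v0_a13, zero_mul]
  have b12 : Rf.B12 0 0 m r = 0 := by
    unfold RowF.B12
    simp only [Rf, l1m_wp, l1m_0 r0 m0 x1]
  have b23 : Rf.B23 0 0 m r = 0 := by
    unfold RowF.B23
    simp only [Rf, l1m_zn, l1m_0 r0 m0 x1, neg_zero]
  have b13 : Rf.B13 0 0 m r = 0 := by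
    unfold RowF.B13
    simp only [Rf, zr7]
    push_cast
    ring
  have hD : Rf.DL 0 0 m r = 0 := by
    unfold RowF.DL
    rw [dln_val, k12, k23, k13]
    ring
  have hN : Rf.NF 0 0 m r = r * 0 := by
    simp only [RowF.NF, Rf, v0_nff, add_zero]
    push_cast
    ring
  have hG : Rf.GM 0 0 m r = -0 := by
    unfold RowF.GM
    rw [k12, k23, k13]
    show Fn6.v gm1 _ _ _ _ _ _ = _
    rw [gm1_val]
    ring
  have hb : Rf.NU 0 0 m r / r + Rf.BS 0 0 m r = -0 + 0 := by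
    simp only [RowF.NU, RowF.BS, Rf, nu0, v0_bsf, xi1_val, xi1_0]
    simp
  have v1 : 0 ≤ Rf.V1A 0 0 m r / r + Rf.V1B 0 0 m r := by
    unfold RowF.V1A RowF.V1B
    rw [a12, a23, a13, b12, b23, b13]
    simp only [Rf, vf1_val]
    simp
  have v2 : 0 ≤ Rf.V2A 0 0 m r / r + Rf.V2B 0 0 m r := by
    unfold RowF.V2A RowF.V2B
    rw [a12, a23, a13, b12, b23, b13]
    simp only [Rf, vf2_val]
    simp
  exact sb_core r0 m0 x1 hU hD hN hG hb le_rfl (Or.inr rfl) v1 v2

theorem cb_n {m r : ℝ} (r0 : 0 < r) (m0 : 0 < m) (x1 : m * r ≤ 1 / 40) : SBase Rn 0 0 m r 0 := by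
  have hU : Rn.U 0 0 m r = 0 := by
    simp only [RowF.U, Rn, v0_u, xi1_val, xi1_0, sub_zero]
  have k12 : Rn.K12 0 0 m r = 0 := by
    unfold RowF.K12
    simp only [Rn, nk1m_wp, k1m_wp, b1m_wp, k1m_0 r0 m0 x1, b1m_0 r0 m0 x1, nkf_0]
  have k23 : Rn.K23 0 0 m r = 0 := by
    unfold RowF.K23
    simp only [Rn, nk1m_zn, k1m_zn, b1m_zn, k1m_0 r0 m0 x1, b1m_0 r0 m0 x1, neg_zero, nkf_0]
  have k13 : Rn.K13 0 0 m r = 0 := by
    unfold RowF.K13
    rw [hU]
    simp only [Rn, v0_nk13, v0_k13, v0_b13, zero_mul, nkf_0]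
  have a12 : Rn.A12 0 0 m r = 0 := by
    unfold RowF.A12
    simp only [Rn, zr7]
    push_cast
    ring
  have a23 : Rn.A23 0 0 m r = 0 := by
    unfold RowF.A23
    simp only [Rn, zr7]
    push_cast
    ring
  have a13 : Rn.A13 0 0 m r = 0 := by
    unfold RowF.A13
    rw [hU]
    simp only [Rn, v0_a13, zero_mul]
  have b12 : Rn.B12 0 0 m r = 0 := by
    unfold RowF.B12
    simp only [Rn, l1m_wp, l1m_0 r0 m0 x1]
  have b23 : Rn.B23 0 0 m r = 0 := by
    unfold RowF.B23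
    simp only [Rn, l1m_zn, l1m_0 r0 m0 x1, neg_zero]
  have b13 : Rn.B13 0 0 m r = 0 := by
    unfold RowF.B13
    simp only [Rn, zr7]
    push_cast
    ring
  have hD : Rn.DL 0 0 m r = 0 := by
    unfold RowF.DL
    rw [dln_val, k12, k23, k13]
    ring
  have hN : Rn.NF 0 0 m r = r * 0 := by
    simp only [RowF.NF, Rn, v0_nfn, add_zero]
    push_cast
    ring
  have hG : Rn.GM 0 0 m r = -0 := by
    unfold RowF.GM
    rw [k12, k23, k13]
    show Fn6.v gm1 _ _ _ _ _ _ = _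
    rw [gm1_val]
    ring
  have hb : Rn.NU 0 0 m r / r + Rn.BS 0 0 m r = -0 + 0 := by
    simp only [RowF.NU, RowF.BS, Rn, nu0, v0_bsn, xi1_val, xi1_0, add_zero]
    simp
  have v1 : 0 ≤ Rn.V1A 0 0 m r / r + Rn.V1B 0 0 m r := by
    unfold RowF.V1A RowF.V1B
    rw [a12, a23, a13, b12, b23, b13]
    simp only [Rn, mv1_val]
    simp
  have v2 : 0 ≤ Rn.V2A 0 0 m r / r + Rn.V2B 0 0 m r := by
    unfold RowF.V2A RowF.V2B
    rw [a12, a23, a13, b12, b23, b13]
    simp only [Rn, mv2_val]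
    simp
  exact sb_core r0 m0 x1 hU hD hN hG hb le_rfl (Or.inr rfl) v1 v2

theorem um_f {w z m r : ℝ} (h : -(w + z) ≤ 5 / 2 * m) : Um Rf w z m r := by
  have a12 : Rf.A12 w z m r = 0 := by
    unfold RowF.A12
    simp only [Rf, zr7]
    simp
  have a23 : Rf.A23 w z m r = 0 := by
    unfold RowF.A23
    simp only [Rf, zr7]
    simp
  have a13 : Rf.A13 w z m r = 0 := by
    unfold RowF.A13
    simp only [Rf, v0_a13, qx3_z h]
    simp
  refine ⟨?_, ?_, ?_⟩
  · simp only [RowF.NU, Rf, nu0]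
    simp
  · unfold RowF.V1A
    rw [a12, a23, a13]
    simp only [Rf, vf1_val]
    simp
  · unfold RowF.V2A
    rw [a12, a23, a13]
    simp only [Rf, vf2_val]
    simp

theorem um_n {w z m r : ℝ} (h : -(w + z) ≤ 5 / 2 * m) : Um Rn w z m r := by
  have a12 : Rn.A12 w z m r = 0 := by
    unfold RowF.A12
    simp only [Rn, zr7]
    simp
  have a23 : Rn.A23 w z m r = 0 := by
    unfold RowF.A23
    simp only [Rn, zr7]
    simp
  have a13 : Rn.A13 w z m r = 0 := by
    unfold RowF.A13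
    simp only [Rn, v0_a13, qx3_z h]
    simp
  refine ⟨?_, ?_, ?_⟩
  · simp only [RowF.NU, Rn, nu0]
    simp
  · unfold RowF.V1A
    rw [a12, a23, a13]
    simp only [Rn, mv1_val]
    simp
  · unfold RowF.V2A
    rw [a12, a23, a13]
    simp only [Rn, mv2_val]
    simp

end Pool.Agent.Strip051.LC.E1.V0
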