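import Pool.Agent.Strip051.LC.E1.Ch.Sls

/-! # Rests near the full period: the functions of the row between the vertical axis and `W` -/

set_option linter.unusedVariables false

namespace Pool.Agent.Strip051.LC.E1.V0

open Pool.Agent.Strip051.PB
open Pool.Agent.Strip051.LC.E1.Ch

attribute [local irreducible] padd psub pneg pmul psq pinv psqrt psqrtg pabs pps pmax pmin pphi plam
  pcase phf pnat prat pscale pnorm pdc pnc pone ppos pnn Enc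

noncomputable def v0_u : Fn4 := ⟨_, _, fun h1 h2 h3 h4 => (enc_norm (enc_sub (xi1.enc h1 h4) (xi1.enc h2 h4)))⟩
noncomputable def v0_u_vvcc : Sl_vvcc v0_u := ⟨_, fun h1 h2 h3 h4 => (pr_norm (pr_sub (xi1_vc.snd h1 h4) (xi1_vc.snd h2 h4)))⟩
noncomputable def v0_nff : Fn3 := ⟨_, _, fun h1 h2 h3 => (enc_neg (enc_half h2))⟩
noncomputable def v0_nff_vvc : Sl_vvc v0_nff := ⟨_, fun h1 h2 h3 => (pr_neg (pr_half h2))⟩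
noncomputable def v0_bsf : Fn6 := ⟨_, _, fun h1 h2 h3 h4 h5 h6 => (enc_norm (enc_sub (enc_half (enc_sub (enc_mul h3 (xi1.enc h1 h5)) (enc_mul h1 (enc_norm (enc_sub (xi1.enc h1 h5) (xi1.enc h2 h5)))))) (enc_half (enc_add (enc_add (enc_sq (xi1.enc h1 h5)) (enc_sq (xi1.enc h2 h5))) (enc_scale 3 4 (enc_add (enc_sq h1) (enc_sq h2)))))))⟩
noncomputable def v0_bsf_vvvccc : Sl_vvvccc v0_bsf := ⟨_, fun h1 h2 h3 h4 h5 h6 => (pr_norm (pr_sub (pr_half (pr_sub (pr_mul h3 (xi1_vc.snd h1 h5)) (pr_mul h1 (pr_norm (pr_sub (xi1_vc.snd h1 h5) (xi1_vc.snd h2 h5)))))) (pr_half (pr_add (pr_add (pr_sq (xi1_vc.snd h1 h5)) (pr_sq (xi1_vc.snd h2 h5))) (pr_scale 3 4 (pr_add (pr_sq h1) (pr_sq h2)))))))⟩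
noncomputable def k1m_wp : Fn7 := ⟨_, _, fun h1 h2 h3 h4 h5 h6 h7 => (k1m.enc h2 h5 h6 h7)⟩
noncomputable def k1m_wp_vvvvccc : Sl_vvvvccc k1m_wp := ⟨_, fun h1 h2 h3 h4 h5 h6 h7 => (k1m_vccc.snd h2 h5 h6 h7)⟩
noncomputable def vw3 : Fn1 := ⟨_, _, fun h1 => (enc_norm (enc_add (enc_mul (enc_norm (enc_add (enc_half (qo.enc h1)) (prf.enc h1))) (enc_inv (tpf.enc h1))) (dwf.enc h1)))⟩
noncomputable def w3k_4 : Fn4 := ⟨_, _, fun h1 h2 h3 h4 => (enc_neg h1)⟩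
noncomputable def w3k_7 : Fn4 := ⟨_, _, fun h1 h2 h3 h4 => (enc_subr 1377 2500 (vw3.enc h4))⟩
noncomputable def w3k_13 : Fn4 := ⟨_, _, fun h1 h2 h3 h4 => (enc_nat 2 (enc_add (w3k_7.enc h1 h2 h3 h4) (enc_rat _ 157 625)))⟩
noncomputable def w3k_14 : Fn4 := ⟨_, _, fun h1 h2 h3 h4 => (enc_scale 2 3 (w3k_7.enc h1 h2 h3 h4))⟩
noncomputable def w3k : Fn4 := ⟨_, _, fun h1 h2 h3 h4 => (enc_norm (enc_sub (enc_add (enc_add (enc_add (enc_scale 314 625 h1) (enc_mul (enc_pos (enc_sub (w3k_4.enc h1 h2 h3 h4) (enc_half h2))) (enc_norm (enc_add (w3k_13.enc h1 h2 h3 h4) (enc_rat _ 314 625))))) (enc_mul (enc_pos (enc_sub (w3k_4.enc h1 h2 h3 h4) h2)) (enc_norm (enc_sub (enc_neg (w3k_14.enc h1 h2 h3 h4)) (w3k_13.enc h1 h2 h3 h4))))) (enc_mul (enc_pos (enc_sub (w3k_4.enc h1 h2 h3 h4) (enc_scale 5 2 h2))) (enc_norm (w3k_14.enc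 h1 h2 h3 h4)))) (enc_scale 1377 2500 h1)))⟩
noncomputable def om3k_4 : Fn4 := ⟨_, _, fun h1 h2 h3 h4 => (enc_neg h1)⟩
noncomputable def om3k : Fn4 := ⟨_, _, fun h1 h2 h3 h4 => (enc_norm (enc_case (enc_sub (om3k_4.enc h1 h2 h3 h4) (enc_scale 2 5 h2)) (enc_rat _ 121 2500) (enc_mul (w3k.enc h1 h2 h3 h4) (enc_inv (om3k_4.enc h1 h2 h3 h4)))))⟩
noncomputable def v0_gk : Fn4 := ⟨_, _, fun h1 h2 h3 h4 => (enc_norm (enc_mul (om3k.enc h1 h2 h3 h4) (enc_inv (dd1.enc h1 h3))))⟩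
noncomputable def v0_k13 : Fn7 := ⟨_, _, fun h1 h2 h3 h4 h5 h6 h7 => (enc_norm (enc_mul h1 (v0_gk.enc h4 h5 h6 h7)))⟩
noncomputable def w3k_4_vccc : Sl_vccc w3k_4 := ⟨_, fun h1 h2 h3 h4 => (pr_neg h1)⟩
noncomputable def w3k_vccc : Sl_vccc w3k := ⟨_, fun h1 h2 h3 h4 => (pr_norm (pr_sub (pr_add (pr_add (pr_add (pr_scale 314 625 h1) (pr_mulc (pr_nd (pr_posh (pr_subc (w3k_4_vccc.snd h1 h2 h3 h4) (enc_half h2)))) (enc_norm (enc_add (w3k_13.enc h1.l h2 h3 h4) (enc_rat _ 314 625))))) (pr_mulc (pr_nd (pr_posh (pr_subc (w3k_4_vccc.snd h1 h2 h3 h4) h2))) (enc_norm (enc_sub (enc_neg (w3k_14.enc h1.l h2 h3 h4)) (w3k_13.enc h1.l h2 h3 h4))))) (pr_mulc (pr_nd (pr_posh (pr_subc (w3k_4_vccc.snd h1 h2 h3 h4) (enc_scale 5 2 h2)))) (enc_norm (w3k_14.enc h1.l h2 h3 h4)))) (pr_scale 1377 2500 h1)))⟩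
noncomputable def om3k_4_vccc : Sl_vccc om3k_4 := ⟨_, fun h1 h2 h3 h4 => (pr_neg h1)⟩
noncomputable def om3k_vccc : Sl_vccc om3k := ⟨_, fun h1 h2 h3 h4 => (pr_norm (pr_case (pr_subc (om3k_4_vccc.snd h1 h2 h3 h4) (enc_scale 2 5 h2)) (pr_const (enc_rat _ 121 2500)) (pr_mul (w3k_vccc.snd h1 h2 h3 h4) (pr_nd (pr_inv (om3k_4_vccc.snd h1 h2 h3 h4))))))⟩
noncomputable def v0_gk_vccc : Sl_vccc v0_gk := ⟨_, fun h1 h2 h3 h4 => (pr_norm (pr_mul (om3k_vccc.snd h1 h2 h3 h4) (pr_nd (pr_inv (dd1_vc.snd h1 h3)))))⟩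
noncomputable def v0_k13_vvvvccc : Sl_vvvvccc v0_k13 := ⟨_, fun h1 h2 h3 h4 h5 h6 h7 => (pr_norm (pr_mul h1 (v0_gk_vccc.snd h4 h5 h6 h7)))⟩
noncomputable def xw3 : Fn4 := ⟨_, _, fun h1 h2 h3 h4 => (enc_norm (enc_neg (enc_mul (enc_scale 9 1250 (lmf.enc h4)) (enc_pos (enc_sub (enc_neg h1) (enc_scale 5 2 h2))))))⟩
noncomputable def qx3_4 : Fn4 := ⟨_, _, fun h1 h2 h3 h4 => (enc_neg h1)⟩
noncomputable def qx3 : Fn4 := ⟨_, _, fun h1 h2 h3 h4 => (enc_norm (enc_case (enc_sub (qx3_4.enc h1 h2 h3 h4) (enc_scale 5 2 h2)) (enc_pnc _ 0) (enc_mul (xw3.enc h1 h2 h3 h4) (enc_inv (qx3_4.enc h1 h2 h3 h4)))))⟩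
noncomputable def v0_a13 : Fn7 := ⟨_, _, fun h1 h2 h3 h4 h5 h6 h7 => (enc_norm (enc_mul h1 (enc_norm (enc_mul (qx3.enc h4 h5 h6 h7) (enc_inv (dd1.enc h4 h6))))))⟩
noncomputable def xw3_vccc : Sl_vccc xw3 := ⟨_, fun h1 h2 h3 h4 => (pr_norm (pr_neg (pr_cmul (enc_scale 9 1250 (lmf.enc h4)) (pr_nd (pr_posh (pr_subc (pr_neg h1) (enc_scale 5 2 h2)))))))⟩
noncomputable def qx3_4_vccc : Sl_vccc qx3_4 := ⟨_, fun h1 h2 h3 h4 => (pr_neg h1)⟩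
noncomputable def qx3_vccc : Sl_vccc qx3 := ⟨_, fun h1 h2 h3 h4 => (pr_norm (pr_case (pr_subc (qx3_4_vccc.snd h1 h2 h3 h4) (enc_scale 5 2 h2)) (pr_const (enc_pnc _ 0)) (pr_mul (xw3_vccc.snd h1 h2 h3 h4) (pr_nd (pr_inv (qx3_4_vccc.snd h1 h2 h3 h4))))))⟩
noncomputable def v0_a13_vvvvccc : Sl_vvvvccc v0_a13 := ⟨_, fun h1 h2 h3 h4 h5 h6 h7 => (pr_norm (pr_mul h1 (pr_norm (pr_mul (qx3_vccc.snd h4 h5 h6 h7) (pr_nd (pr_inv (dd1_vc.snd h4 h6)))))))⟩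
noncomputable def l1m_wp : Fn7 := ⟨_, _, fun h1 h2 h3 h4 h5 h6 h7 => (l1m.enc h2 h5 h6 h7)⟩
noncomputable def l1m_wp_vvvvccc : Sl_vvvvccc l1m_wp := ⟨_, fun h1 h2 h3 h4 h5 h6 h7 => (l1m_vccc.snd h2 h5 h6 h7)⟩
noncomputable def v0_nfn : Fn3 := ⟨_, _, fun h1 h2 h3 => (enc_norm (enc_neg (enc_half (enc_mul (bef.enc h3) h2))))⟩
noncomputable def v0_nfn_vvc : Sl_vvc v0_nfn := ⟨_, fun h1 h2 h3 => (pr_norm (pr_neg (pr_half (pr_cmul (bef.enc h3) h2))))⟩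
noncomputable def v0_bsn : Fn6 := ⟨_, _, fun h1 h2 h3 h4 h5 h6 => (enc_norm (enc_add (enc_mul (n1f.enc h6) (enc_norm (enc_sub (enc_half (enc_sub (enc_mul h3 (xi1.enc h1 h5)) (enc_mul h1 (enc_norm (enc_sub (xi1.enc h1 h5) (xi1.enc h2 h5)))))) (enc_half (enc_add (enc_add (enc_sq (xi1.enc h1 h5)) (enc_sq (xi1.enc h2 h5))) (enc_scale 3 4 (enc_add (enc_sq h1) (enc_sq h2)))))))) (enc_mul (enc_norm (enc_mul (enc_norm (enc_mul (mu.enc h6) (lmf.enc h6))) (enc_norm (enc_mul h4 (enc_norm (enc_mul (qo.enc h6) (enc_inv (enc_nat 2 (eh.enc h6))))))))) (enc_half h3))))⟩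
noncomputable def v0_bsn_vvvccc : Sl_vvvccc v0_bsn := ⟨_, fun h1 h2 h3 h4 h5 h6 => (pr_norm (pr_add (pr_cmul (n1f.enc h6) (pr_norm (pr_sub (pr_half (pr_sub (pr_mul h3 (xi1_vc.snd h1 h5)) (pr_mul h1 (pr_norm (pr_sub (xi1_vc.snd h1 h5) (xi1_vc.snd h2 h5)))))) (pr_half (pr_add (pr_add (pr_sq (xi1_vc.snd h1 h5)) (pr_sq (xi1_vc.snd h2 h5))) (pr_scale 3 4 (pr_add (pr_sq h1) (pr_sq h2)))))))) (pr_cmul (enc_norm (enc_mul (enc_norm (enc_mul (mu.enc h6) (lmf.enc h6))) (enc_norm (enc_mul h4 (enc_norm (enc_mul (qo.enc h6) (enc_inv (enc_nat 2 (eh.enc h6))))))))) (pr_nd (pr_half h3)))))⟩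
noncomputable def b1m_wp : Fn7 := ⟨_, _, fun h1 h2 h3 h4 h5 h6 h7 => (b1m.enc h2 h5 h6 h7)⟩
noncomputable def nk1m_wp : Fn7 := ⟨_, _, fun h1 h2 h3 h4 h5 h6 h7 => (nkf.enc h7 (k1m_wp.enc h1 h2 h3 h4 h5 h6 h7) (b1m_wp.enc h1 h2 h3 h4 h5 h6 h7))⟩
noncomputable def b1m_wp_vvvvccc : Sl_vvvvccc b1m_wp := ⟨_, fun h1 h2 h3 h4 h5 h6 h7 => (b1m_vccc.snd h2 h5 h6 h7)⟩
noncomputable def nk1m_wp_vvvvccc : Sl_vvvvccc nk1m_wp := ⟨_, fun h1 h2 h3 h4 h5 h6 h7 => (nkf_cvv.snd h7 (pr_nd (k1m_wp_vvvvccc.snd h1 h2 h3 h4 h5 h6 h7)) (pr_nd (b1m_wp_vvvvccc.snd h1 h2 h3 h4 h5 h6 h7)))⟩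
noncomputable def v0_w3b_4 : Fn4 := ⟨_, _, fun h1 h2 h3 h4 => (enc_neg h1)⟩
noncomputable def v0_w3b : Fn4 := ⟨_, _, fun h1 h2 h3 h4 => (enc_norm (enc_sub (enc_sub (enc_add (enc_add (enc_scale 12119 5000 h1) (enc_scale 3097 1250 (enc_pos (enc_sub (v0_w3b_4.enc h1 h2 h3 h4) (enc_half h2))))) (enc_scale 3681 5000 (enc_pos (enc_sub (v0_w3b_4.enc h1 h2 h3 h4) h2)))) (enc_scale 79 100 (enc_pos (enc_sub (v0_w3b_4.enc h1 h2 h3 h4) (enc_scale 5 2 h2))))) (enc_scale 237 200 h1)))⟩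
noncomputable def v0_om3b_4 : Fn4 := ⟨_, _, fun h1 h2 h3 h4 => (enc_neg h1)⟩
noncomputable def v0_om3b : Fn4 := ⟨_, _, fun h1 h2 h3 h4 => (enc_norm (enc_case (enc_sub (v0_om3b_4.enc h1 h2 h3 h4) (enc_scale 2 5 h2)) (enc_neg (enc_rat _ 3097 2500)) (enc_mul (v0_w3b.enc h1 h2 h3 h4) (enc_inv (v0_om3b_4.enc h1 h2 h3 h4)))))⟩
noncomputable def v0_gb : Fn4 := ⟨_, _, fun h1 h2 h3 h4 => (enc_norm (enc_mul (v0_om3b.enc h1 h2 h3 h4) (enc_inv (dd1.enc h1 h3))))⟩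
noncomputable def v0_b13 : Fn7 := ⟨_, _, fun h1 h2 h3 h4 h5 h6 h7 => (enc_norm (enc_mul h1 (v0_gb.enc h4 h5 h6 h7)))⟩
noncomputable def v0_nk13 : Fn7 := ⟨_, _, fun h1 h2 h3 h4 h5 h6 h7 => (nkf.enc h7 (v0_k13.enc h1 h2 h3 h4 h5 h6 h7) (v0_b13.enc h1 h2 h3 h4 h5 h6 h7))⟩
noncomputable def v0_w3b_4_vccc : Sl_vccc v0_w3b_4 := ⟨_, fun h1 h2 h3 h4 => (pr_neg h1)⟩
noncomputable def v0_w3b_vccc : Sl_vccc v0_w3b := ⟨_, fun h1 h2 h3 h4 => (pr_norm (pr_sub (pr_sub (pr_add (pr_add (pr_scale 12119 5000 h1) (pr_scale 3097 1250 (pr_posh (pr_subc (v0_w3b_4_vccc.snd h1 h2 h3 h4) (enc_half h2))))) (pr_scale 3681 5000 (pr_posh (pr_subc (v0_w3b_4_vccc.snd h1 h2 h3 h4) h2)))) (pr_scale 79 100 (pr_posh (pr_subc (v0_w3b_4_vccc.snd h1 h2 h3 h4) (enc_scale 5 2 h2))))) (pr_scale 237 200 h1)))⟩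
noncomputable def v0_om3b_4_vccc : Sl_vccc v0_om3b_4 := ⟨_, fun h1 h2 h3 h4 => (pr_neg h1)⟩
noncomputable def v0_om3b_vccc : Sl_vccc v0_om3b := ⟨_, fun h1 h2 h3 h4 => (pr_norm (pr_case (pr_subc (v0_om3b_4_vccc.snd h1 h2 h3 h4) (enc_scale 2 5 h2)) (pr_const (enc_neg (enc_rat _ 3097 2500))) (pr_mul (v0_w3b_vccc.snd h1 h2 h3 h4) (pr_nd (pr_inv (v0_om3b_4_vccc.snd h1 h2 h3 h4))))))⟩
noncomputable def v0_gb_vccc : Sl_vccc v0_gb := ⟨_, fun h1 h2 h3 h4 => (pr_norm (pr_mul (v0_om3b_vccc.snd h1 h2 h3 h4) (pr_nd (pr_inv (dd1_vc.snd h1 h3)))))⟩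
noncomputable def v0_b13_vvvvccc : Sl_vvvvccc v0_b13 := ⟨_, fun h1 h2 h3 h4 h5 h6 h7 => (pr_norm (pr_mul h1 (v0_gb_vccc.snd h4 h5 h6 h7)))⟩
noncomputable def v0_nk13_vvvvccc : Sl_vvvvccc v0_nk13 := ⟨_, fun h1 h2 h3 h4 h5 h6 h7 => (nkf_cvv.snd h7 (v0_k13_vvvvccc.snd h1 h2 h3 h4 h5 h6 h7) (v0_b13_vvvvccc.snd h1 h2 h3 h4 h5 h6 h7))⟩
noncomputable def mv1 : Fn8 := ⟨_, _, fun h1 h2 h3 h4 h5 h6 h7 h8 => (enc_norm (enc_mul (mu.enc h5) (enc_norm (enc_add (enc_half (enc_sub (enc_mul (enc_norm (enc_add (enc_pnc _ 1) (enc_mul h4 h2))) h6) (enc_mul (enc_norm (enc_add (enc_pnc _ 1) (enc_mul h4 h1))) h7))) (enc_half (enc_mul (enc_norm (enc_sub (enc_sub (enc_pnc _ 2) h5) (enc_mul h4 h3))) (enc_norm (enc_sub (enc_add h6 h7) h8))))))))⟩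
noncomputable def mv1_vvvccvvv : Sl_vvvccvvv mv1 := ⟨_, fun h1 h2 h3 h4 h5 h6 h7 h8 => (pr_norm (pr_cmul (mu.enc h5) (pr_norm (pr_add (pr_half (pr_sub (pr_mul (pr_norm (pr_cadd (enc_pnc _ 1) (pr_cmul h4 h2))) h6) (pr_mul (pr_norm (pr_cadd (enc_pnc _ 1) (pr_cmul h4 h1))) h7))) (pr_half (pr_mul (pr_norm (pr_csub (enc_sub (enc_pnc _ 2) h5) (pr_cmul h4 h3))) (pr_norm (pr_sub (pr_add h6 h7) h8))))))))⟩
noncomputable def mv2 : Fn8 := ⟨_, _, fun h1 h2 h3 h4 h5 h6 h7 h8 => (enc_norm (enc_mul (mu.enc h5) (enc_norm (enc_sub (enc_half (enc_sub (enc_mul (enc_norm (enc_add (enc_pnc _ 1) (enc_mul h4 h2))) h6) (enc_mul (enc_norm (enc_add (enc_pnc _ 1) (enc_mul h4 h1))) h7))) (enc_half (enc_mul (enc_norm (enc_sub (enc_sub (enc_pnc _ 2) h5) (enc_mul h4 h3))) (enc_norm (enc_sub (enc_add h6 h7) h8))))))))⟩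
noncomputable def mv2_vvvccvvv : Sl_vvvccvvv mv2 := ⟨_, fun h1 h2 h3 h4 h5 h6 h7 h8 => (pr_norm (pr_cmul (mu.enc h5) (pr_norm (pr_sub (pr_half (pr_sub (pr_mul (pr_norm (pr_cadd (enc_pnc _ 1) (pr_cmul h4 h2))) h6) (pr_mul (pr_norm (pr_cadd (enc_pnc _ 1) (pr_cmul h4 h1))) h7))) (pr_half (pr_mul (pr_norm (pr_csub (enc_sub (enc_pnc _ 2) h5) (pr_cmul h4 h3))) (pr_norm (pr_sub (pr_add h6 h7) h8))))))))⟩

end Pool.Agent.Strip051.LC.E1.V0
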