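import Pool.Agent.Strip051.LC.E1.V0.Val
import Pool.Agent.Strip051.LC.E1.Ch.Lk

/-! # Rests near the full period: the row between the vertical axis and `W`, the line `z = 0` -/

set_option linter.unusedVariables false

namespace Pool.Agent.Strip051.LC.E1.V0

open Pool.Agent.Strip051.PB
open Pool.Agent.Strip051.LC.E1.Ch

attribute [local irreducible] padd psub pneg pmul psq pinv psqrt psqrtg pabs pps pmax pmin pphi plam
  pcase phf pnat prat pscale pnorm pdc pnc pone ppos pnn Enc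

/-- What is known at the line `z = 0`, `w = t`. -/
structure LineZ (R : RowF) (t m r : ℝ) : Prop where
  i1 : 3 / 5 ≤ -t → -t ≤ 11 / 10 →
    0 ≤ lnf.v (m * r) m (R.L t 0) (R.BN t 0 m r) (R.DS t 0 m r) + R.V1B t 0 m r
  i2 : 3 / 5 ≤ -t → -t ≤ 11 / 10 →
    0 ≤ lnf.v (m * r) m (R.L t 0) (R.BN t 0 m r) (R.DS t 0 m r) + R.V2B t 0 m r

section

variable {E : Pt} {R : RowF} {q : Bool} {S : RowS R q}
  {W Z M Q : ℕ} {w z m r lev : ℝ}

theorem lvT_sound (hw : Enc E W w) (hz : Enc E Z z) (hm : Enc E M m) (hr : Enc E Q r)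
    (hq : q = true → R.U (w + z) 0 m r = 0) (hN : 0 ≤ -z)
    (D : Dm R w z m r) (B : LineZ R (w + z) m r) (um : Um R w z m r)
    (hA : R.A w z = -z) (hlev : R.Lv w z m r lev)
    (h : lvT S W Z M Q = true) : R.Sk w z m r lev := by
  unfold lvT at h
  simp only [frc_eq] at h
  obtain ⟨r1, h⟩ := band_true h
  obtain ⟨r2, h⟩ := band_true h
  have hT := enc_norm (enc_add hw hz)
  have hr1 := pnn_sound (enc_sub (enc_neg hT) (enc_rat E 3 5)) r1
  have hr2 := pnn_sound (enc_sub (enc_rat E 11 10) (enc_neg hT)) r2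
  push_cast at hr1 hr2
  have hX : Enc E (pnorm (pmul M Q)) (m * r) := enc_norm (enc_mul hm hr)
  have hW : Pr E (-z) W (pnorm (padd W Z)) pone w (w + z) :=
    ⟨hw, hT, 1, enc_one E, by ring⟩
  have hZ : Pr E (-z) Z pzero (pneg pone) z 0 :=
    ⟨hz, enc_zero E, -1, enc_neg (enc_one E), by ring⟩
  obtain ⟨Ua, Ub, Ud, NUa, NUb, NUd, NFa, NFb, NFd, BSa, BSb, BSd, La, Lb, Ld, Aa, Ab, Ad, Ba,
      Bb, Bd, GMa, GMb, GMd, DSa, DSb, DSd, GPa, GPb, GPd, V1Aa, V1Ab, V1Ad, V1Ba, V1Bb, V1Bd,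
      V2Aa, V2Ab, V2Ad, V2Ba, V2Bb, V2Bd, BNa, BNb, BNd, h, F⟩ := pval_sound hW hZ hm hr hq (fun
      e => absurd e Bool.false_ne_true) h
  obtain ⟨t0, h⟩ := band_true h
  have h0 := pnn_sound F.ds.l t0
  obtain ⟨v1d, k1, e1⟩ := F.v1b.d
  obtain ⟨v2d, k2, e2⟩ := F.v2b.d
  have hAe : Enc E Aa (-z) := by rw [← hA]; exact F.a.l
  have hlv : ∀ F' : ℝ, 0 ≤ F' + R.V1B w z m r → 0 ≤ F' + R.V2B w z m r → 0 ≤ F' - lev := by
    intro F' g1 g2
    refine hlev F' ?_ ?_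
    · rw [um.v1]; simpa using g1
    · rw [um.v2]; simpa using g2
  have b1 := B.i1 (by linarith) (by linarith)
  have b2 := B.i2 (by linarith) (by linarith)
  have r1 := inL_sound (mar := false) (v1 := R.V1B w z m r) (v2 := R.V2B w z m r) hX hr hm F.l hAe
    F.b.l F.bn F.ds F.gp.l k1 k2 e1 e2 hN h (by simpa using b1) (by simpa using b2)
  refine sk_of_res (nnr := 0) (fo := R.FO w z m r)
    (bs' := (R.NU w z m r + R.NF w z m r) / r + R.BS w z m r) D rfl rfl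
    (nr := 0) (bn' := R.BN w z m r) (by rw [um.nu]; simp) (by linarith) le_rfl hlv
    (Or.inl (Or.inr ⟨h0, ?_⟩))
  rw [hA]
  exact r1

end

/-! ### Coordinates -/

section

variable {E : Pt} {f : ℕ → ℕ → ℕ → ℕ → Bool} {A B : ℕ} {N p : ℝ}

theorem polnn_sound (hA : Enc E A N) (hB : Enc E B p) (h : polnn f A B = true) :
    PolS f E N (-(N * (1 - p))) (-(N * p)) := by
  unfold polnn at h
  simp only [frc_eq] at h
  have h1 := enc_sub (enc_one E) hB
  exact ⟨_, _, _, _, -(1 - p), -p, enc_norm (enc_neg (enc_mul hA h1)), enc_neg h1,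
    enc_norm (enc_neg (enc_mul hA hB)), enc_neg hB, by ring, by ring, h⟩

end

theorem crd_nn {r lam w z : ℝ} (D : Dom .nn r lam w z) : Crd polnn r lam w z := by
  have hN : 0 < -(w + z) := D.l
  obtain ⟨h1, h2⟩ : w ≤ 0 ∧ z ≤ 0 := D.ok
  refine ⟨-(w + z), -z / -(w + z), hN, div_nonneg (by linarith) hN.le,
    (div_le_one hN).2 (by linarith), ?_, dom_crd D⟩
  intro E f A B hA hB h
  have e1 : -(w + z) * (-z / -(w + z)) = -z := mul_div_cancel₀ _ hN.ne'
  have := polnn_sound hA hB h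
  rw [mul_sub, e1, mul_one] at this
  have e2 : -(-(w + z) - -z) = w := by ring
  rw [e2, neg_neg] at this
  exact this

end Pool.Agent.Strip051.LC.E1.V0
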