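import Pool.Agent.Strip051.LC.E1.Ch.Main
import Pool.Agent.Strip051.LC.E1.V0.Fn

/-! # Rests near the full period: the row between the vertical axis and `W` -/

set_option linter.unusedVariables false

namespace Pool.Agent.Strip051.LC.E1.V0

open Pool.Agent.Strip051.PB
open Pool.Agent.Strip051.LC.E1.Ch

/-- The functions of the row. -/
noncomputable def Rf : RowF :=
  ⟨v0_u, v0_nff, nu0, v0_bsf, k1m_wp, k1m_zn, v0_k13, zr7, zr7, v0_a13, l1m_wp, l1m_zn, zr7, vf1,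
      vf2, lnt, lnz, lnw, gm1⟩

/-- Their slopes. -/
noncomputable def Sf : RowS Rf false :=
  ⟨v0_u_vvcc, v0_nff_vvc, nu0_vvc, v0_bsf_vvvccc, slv k1m_wp_vvvvccc, slv k1m_zn_vvvvccc, slv
      v0_k13_vvvvccc, slv zr7_vvvvccc, slv zr7_vvvvccc, slv v0_a13_vvvvccc, slv l1m_wp_vvvvccc,
      slv l1m_zn_vvvvccc, slv zr7_vvvvccc, vf1_vvvccvvv, vf2_vvvccvvv, lnt_vvv, lnz_vvv, lnw_vvv,
      gm1_vvvvvv⟩

/-- The functions of the row. -/
noncomputable def Rn : RowF :=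
  ⟨v0_u, v0_nfn, nu0, v0_bsn, nk1m_wp, nk1m_zn, v0_nk13, zr7, zr7, v0_a13, l1m_wp, l1m_zn, zr7,
      mv1, mv2, lnt, lnz, lnw, gm1⟩

/-- Their slopes. -/
noncomputable def Sn : RowS Rn false :=
  ⟨v0_u_vvcc, v0_nfn_vvc, nu0_vvc, v0_bsn_vvvccc, slv nk1m_wp_vvvvccc, slv nk1m_zn_vvvvccc, slv
      v0_nk13_vvvvccc, slv zr7_vvvvccc, slv zr7_vvvvccc, slv v0_a13_vvvvccc, slv l1m_wp_vvvvccc,
      slv l1m_zn_vvvvccc, slv zr7_vvvvccc, mv1_vvvccvvv, mv2_vvvccvvv, lnt_vvv, lnz_vvv, lnw_vvv,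
      gm1_vvvvvv⟩

/-- leaf at the line `z = 0` -/
noncomputable def lvT {R : RowF} {q : Bool} (S : RowS R q) (W Z M Q : ℕ) : Bool :=
  frc (pnorm (padd W Z)) fun T => frc (pneg T) fun L =>
  band (pnn (psub L (prat 3 5))) (band (pnn (psub (prat 11 10) L))
    (frc (pnorm (pmul M Q)) fun X =>
    pval S false W T pone Z pzero (pneg pone) M Q fun Ua Ub Ud NUa NUb NUd NFa NFb NFd BSa BSb
        BSd La Lb Ld Aa Ab Ad Ba Bb Bd GMa GMb GMd DSa DSb DSd GPa GPb GPd V1Aa V1Ab V1Ad V1Ba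
        V1Bb V1Bd V2Aa V2Ab V2Ad V2Ba V2Bb V2Bd BNa BNb BNd =>
      band (pnn DSa) (inL false X Q M La Lb Ld Aa Ba BNa BNb BNd DSa DSb DSd GPa V1Bd V2Bd)))

/-- `w = - N (1 - p)`, `z = - N p` -/
noncomputable def polnn (f : ℕ → ℕ → ℕ → ℕ → Bool) (A B : ℕ) : Bool :=
  frc (psub pone B) fun O => frc (pnorm (pneg (pmul A O))) fun W =>
  frc (pnorm (pneg (pmul A B))) fun Z => frc (pneg O) fun O' => frc (pneg B) fun B' =>
    f W O' Z B'

noncomputable def B1f (h W Wd Z Zd M Q : ℕ) : Bool :=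
  body (fun c k s => dirT Rf true c k s W Z M Q) noF
    (fun c k s => conT Sf true c k s W Wd Z Zd M Q)
    (fun _ _ _ => lvT Sf W Z M Q)
    (exits (exT Rf W Z M Q) false (cexT Sf W Wd Z Zd M Q)) noF h

noncomputable def T1f : ℕ → ℕ → ℕ → ℕ → Bool := ch1 polnn B1f

noncomputable def B2f (h W Wd Z Zd M Q : ℕ) : Bool :=
  body (fun c k s => dirT Rf false c k s W Z M Q) noF noF noF
    (exits (exT Rf W Z M Q) false false) noF h

noncomputable def T2f : ℕ → ℕ → ℕ → ℕ → Bool := ch2 polnn B2f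

noncomputable def B1n (h W Wd Z Zd M Q : ℕ) : Bool :=
  body (fun c k s => dirT Rn true c k s W Z M Q) noF
    (fun c k s => conT Sn true c k s W Wd Z Zd M Q)
    (fun _ _ _ => lvT Sn W Z M Q)
    (exits (exT Rn W Z M Q) false (cexT Sn W Wd Z Zd M Q)) noF h

noncomputable def T1n : ℕ → ℕ → ℕ → ℕ → Bool := ch1 polnn B1n

noncomputable def B2n (h W Wd Z Zd M Q : ℕ) : Bool :=
  body (fun c k s => dirT Rn false c k s W Z M Q) noF noF noF
    (exits (exT Rn W Z M Q) false false) noF h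

noncomputable def T2n : ℕ → ℕ → ℕ → ℕ → Bool := ch2 polnn B2n

end Pool.Agent.Strip051.LC.E1.V0
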