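import Pool.Agent.Strip051.LC.E1.Ch.Bk
import Pool.Agent.Strip051.LC.E1.V0.Rw

/-! # Rests near the full period: the row between the vertical axis and `W`, values -/

set_option linter.unusedVariables false
set_option linter.unusedSimpArgs false

namespace Pool.Agent.Strip051.LC.E1.V0

open Pool.Agent.Strip051.PB
open Pool.Agent.Strip051.LC.E1.Ch
open Pool.Agent.Strip051.LC.E1.G (hg)

theorem vw3_val (x : ℝ) : vw3.v x = G.vW3 x := by
  simp only [vw3, prf_val, tpf_val, qo_val, dwf_val]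
  push_cast
  unfold G.vW3
  rw [div_eq_mul_inv _ (G.eh x + 1)]

theorem w3k_val (t m r : ℝ) : w3k.v t m r (m * r) = G.wK3 r m (-t) := by
  simp only [w3k, w3k_4, w3k_7, w3k_13, w3k_14, vw3_val]
  unfold G.wK3 G.tl hg
  push_cast
  ring_nf

theorem w3b_val (t m r : ℝ) : v0_w3b.v t m r (m * r) = G.wB3 r m (-t) := by
  simp only [v0_w3b, v0_w3b_4]
  unfold G.wB3 G.tl hg
  push_cast
  ring_nf

theorem om3k_val {t m r : ℝ} (hm : 0 < m) (ht : t < 0) :
    om3k.v t m r (m * r) = G.wK3 r m (-t) / -t := by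
  simp only [om3k, om3k_4, w3k_val]
  push_cast
  rcases le_or_gt (-t - 2 / 5 * m) 0 with h | h
  · rw [if_pos h, eq_div_iff (by linarith : -t ≠ 0)]
    unfold G.wK3
    rw [tl_s hm (by linarith)]
    ring
  · rw [if_neg h.not_ge, div_eq_mul_inv]

theorem om3b_val {t m r : ℝ} (hm : 0 < m) (ht : t < 0) :
    v0_om3b.v t m r (m * r) = G.wB3 r m (-t) / -t := by
  simp only [v0_om3b, v0_om3b_4, w3b_val]
  push_cast
  rcases le_or_gt (-t - 2 / 5 * m) 0 with h | h
  · rw [if_pos h, eq_div_iff (by linarith : -t ≠ 0)]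
    unfold G.wB3
    rw [tl_s hm (by linarith)]
    ring
  · rw [if_neg h.not_ge, div_eq_mul_inv]

theorem xw3_val (t m r : ℝ) : xw3.v t m r (m * r) = (G.W3 r m t).cA := by
  simp only [xw3, lmf_val]
  unfold G.W3 hg
  push_cast
  ring_nf

theorem qx3_val {t m r : ℝ} (hm : 0 < m) (ht : t < 0) :
    qx3.v t m r (m * r) = (G.W3 r m t).cA / -t := by
  simp only [qx3, qx3_4, xw3_val]
  push_cast
  rcases le_or_gt (-t - 5 / 2 * m) 0 with h | h
  · rw [if_pos h]
    unfold G.W3
    simp only [hg_le h, mul_zero, zero_div]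
  · rw [if_neg h.not_ge, div_eq_mul_inv]

theorem qx3_z {t m r : ℝ} (h : -t ≤ 5 / 2 * m) : qx3.v t m r (m * r) = 0 := by
  simp only [qx3]
  push_cast
  rw [if_pos]
  simp only [qx3_4]
  linarith

theorem gk_val {t m r : ℝ} (hm : 0 < m) (ht : t < 0) :
    v0_gk.v t m r (m * r) = (G.W3 r m t).k / E0.G.xi1 t r := by
  simp only [v0_gk, om3k_val hm ht, dd1_val]
  rw [xi1_D, ← neg_mul, ← div_div, ← div_eq_mul_inv]
  rfl

theorem gb_val {t m r : ℝ} (hm : 0 < m) (ht : t < 0) :
    v0_gb.v t m r (m * r) = (G.W3 r m t).b / E0.G.xi1 t r := by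
  simp only [v0_gb, om3b_val hm ht, dd1_val]
  rw [xi1_D, ← neg_mul, ← div_div, ← div_eq_mul_inv]
  rfl

theorem mv1_val (w z t r x a b c : ℝ) : mv1.v w z t r x a b c =
    G.mu x * (((1 + r * z) * a - (1 + r * w) * b) / 2 + (2 - x - r * t) * (a + b - c) / 2) := by
  simp only [mv1, mu_val']
  push_cast
  ring

theorem mv2_val (w z t r x a b c : ℝ) : mv2.v w z t r x a b c =
    G.mu x * (((1 + r * z) * a - (1 + r * w) * b) / 2 - (2 - x - r * t) * (a + b - c) / 2) := by
  simp only [mv2, mu_val']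
  push_cast
  ring

/-- The near vertex, at the vertical window. -/
theorem near_goodV {P : Pat} {R : RowF} {w z r m xi12 xi13 N S : ℝ} {a b c : Sv}
    (hp : PatF P R) (hf1 : R.v1 = mv1) (hf2 : R.v2 = mv2)
    (D : Dm R w z m r) (hn : R.NF w z m r = -(G.be (m * r) * BV.g w z))
    (hb : R.NU w z m r / r + R.BS w z m r = (1 + G.LAM (m * r) * G.mu (m * r)) * N / r +
      ((1 + G.LAM (m * r) * G.mu (m * r)) * (S + ((w + z) * xi12 - w * xi13) / 2) +
        G.mu (m * r) * G.LAM (m * r) * m * G.q1 (m * r) / (2 * G.eh (m * r)) * BV.g w z))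
    (v : ValN R w z m r a b c) :
    Good R w z m r (RowC .near P BV r m w z xi12 xi13 N S a b c) := by
  refine ⟨Pool.Agent.Strip051.LC.E1.lvn BV r m w z (a.c r) (b.c r) (c.c r), D, ?_, ?_⟩
  · intro F h1 h2
    unfold RowF.V1A RowF.V1B at h1
    unfold RowF.V2A RowF.V2B at h2
    rw [hf1, mv1_val, mv1_val] at h1
    rw [hf2, mv2_val, mv2_val] at h2
    have e1 : ∀ a12 a23 a13 b12 b23 b13 : ℝ,
        G.mu (m * r) * (((1 + r * z) * a12 - (1 + r * w) * a23) / 2 +
          (2 - m * r - r * (w + z)) * (a12 + a23 - a13) / 2) / r +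
        G.mu (m * r) * (((1 + r * z) * b12 - (1 + r * w) * b23) / 2 +
          (2 - m * r - r * (w + z)) * (b12 + b23 - b13) / 2) =
        G.mu (m * r) * (((1 + r * z) * (a12 / r + b12) - (1 + r * w) * (a23 / r + b23)) / 2 +
          (2 - m * r - r * (w + z)) / 2 * ((a12 / r + b12) + (a23 / r + b23) -
            (a13 / r + b13))) := by
      intro a12 a23 a13 b12 b23 b13
      ring
    have e2 : ∀ a12 a23 a13 b12 b23 b13 : ℝ,
        G.mu (m * r) * (((1 + r * z) * a12 - (1 + r * w) * a23) / 2 -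
          (2 - m * r - r * (w + z)) * (a12 + a23 - a13) / 2) / r +
        G.mu (m * r) * (((1 + r * z) * b12 - (1 + r * w) * b23) / 2 -
          (2 - m * r - r * (w + z)) * (b12 + b23 - b13) / 2) =
        G.mu (m * r) * (((1 + r * z) * (a12 / r + b12) - (1 + r * w) * (a23 / r + b23)) / 2 -
          (2 - m * r - r * (w + z)) / 2 * ((a12 / r + b12) + (a23 / r + b23) -
            (a13 / r + b13))) := by
      intro a12 a23 a13 b12 b23 b13
      ring
    rw [e1, v.c12, v.c23, v.c13] at h1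
    rw [e2, v.c12, v.c23, v.c13] at h2
    unfold Pool.Agent.Strip051.LC.E1.lvn
    have k1 : BV.n = 1 := rfl
    have k2 : BV.n' = 1 := rfl
    rw [k1, k2]
    rcases abs_cases (a.c r + b.c r - c.c r) with ⟨h, _⟩ | ⟨h, _⟩ <;> rw [h] <;>
      nlinarith [h1, h2]
  · intro h
    have := sk_slkP hp hn hb h
    rw [v.k12, v.k23, v.k13] at this
    exact this

section

variable {r lam w z xi : ℝ}

theorem u_val : v0_u.v w z lam r = E0.G.xi1 w r - E0.G.xi1 z r := by
  simp only [v0_u, xi1_val]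

theorem gf (D : Dom .nn r lam w z) (e_xi : xi = E0.G.xi1 w r - E0.G.xi1 z r) (h1 : 0 ≤ xi) :
    Good Rf w z lam r
      (RowV .far .nn r lam w z xi 0 (G.C1d r lam w) (-G.C1d r lam z) (G.V0 xi r lam (w + z))) := by
  obtain ⟨H1, H2, H3⟩ := hc_of D
  have ht : w + z < 0 := by have := D.l; show w + z < 0; have e : 0 < -(w + z) := this; linarith
  have hU : Rf.U w z lam r = xi := by
    rw [e_xi]
    exact u_val
  have hp : PatF .nn Rf := ⟨rfl, rfl, rfl, rfl⟩
  have hD := dm_of hp D (by rw [hU]; exact h1)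
  have hn : Rf.NF w z lam r = -BV.g w z := by
    simp only [RowF.NF, Rf, v0_nff]
    unfold Bs.g BV
    push_cast
    ring
  have hb : Rf.NU w z lam r / r + Rf.BS w z lam r = 0 / r + (((G.x2 w r + G.x2 z r) / 2) +
      ((w + z) * (E0.G.xi1 w r) - w * xi) / 2) := by
    subst e_xi
    simp only [RowF.NU, RowF.BS, Rf, nu0, v0_bsf, xi1_val]
    rw [x2_eq H1, x2_eq H2]
    push_cast
    ring
  have k12 : Rf.K12 w z lam r = (G.C1d r lam w).k := by
    unfold RowF.K12
    simp only [Rf, k1m_wp]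
    rw [k1m_val H1]
  have c12 : Rf.A12 w z lam r / r + Rf.B12 w z lam r = (G.C1d r lam w).c r := by
    unfold RowF.A12 RowF.B12
    simp only [Rf, zr7, l1m_wp]
    rw [cC1d H1]
    push_cast
    ring
  have k23 : Rf.K23 w z lam r = (-G.C1d r lam z).k := by
    unfold RowF.K23
    simp only [Rf, k1m_zn]
    rw [neg_k, k1m_val H2]
  have c23 : Rf.A23 w z lam r / r + Rf.B23 w z lam r = (-G.C1d r lam z).c r := by
    unfold RowF.A23 RowF.B23
    simp only [Rf, zr7, l1m_zn]
    rw [neg_c, cC1d H2]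
    push_cast
    ring
  have k13 : Rf.K13 w z lam r = (G.V0 xi r lam (w + z)).k := by
    unfold RowF.K13
    rw [hU]
    simp only [Rf, v0_k13]
    rw [gk_val D.l0 ht]
    rfl
  have c13 : Rf.A13 w z lam r / r + Rf.B13 w z lam r = (G.V0 xi r lam (w + z)).c r := by
    unfold RowF.A13 RowF.B13
    rw [hU]
    simp only [Rf, v0_a13, zr7, qx3_val D.l0 ht, dd1_val]
    unfold Sv.c
    show _ = xi * ((G.W3 r lam (w + z)).cA / E0.G.xi1 (w + z) r) / r + 0
    rw [xi1_D, ← neg_mul, ← div_div, ← div_eq_mul_inv]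
    push_cast
    ring
  exact far_good hp ⟨rfl, rfl⟩ hD hn hb ⟨k12, k23, k13, c12, c23, c13⟩

theorem gn (D : Dom .nn r lam w z) (e_xi : xi = E0.G.xi1 w r - E0.G.xi1 z r) (h1 : 0 ≤ xi) :
    Good Rn w z lam r
      (RowV .near .nn r lam w z xi 0 (G.C1d r lam w) (-G.C1d r lam z) (G.V0 xi r lam (w + z))) := by
  obtain ⟨H1, H2, H3⟩ := hc_of D
  have ht : w + z < 0 := by have := D.l; show w + z < 0; have e : 0 < -(w + z) := this; linarith
  have hU : Rn.U w z lam r = xi := by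
    rw [e_xi]
    exact u_val
  have hp : PatF .nn Rn := ⟨rfl, rfl, rfl, rfl⟩
  have hD := dm_of hp D (by rw [hU]; exact h1)
  have hn : Rn.NF w z lam r = -(G.be (lam * r) * BV.g w z) := by
    simp only [RowF.NF, Rn, v0_nfn, bef_val]
    unfold Bs.g BV
    push_cast
    ring
  have hb : Rn.NU w z lam r / r + Rn.BS w z lam r =
      (1 + G.LAM (lam * r) * G.mu (lam * r)) * 0 / r +
      ((1 + G.LAM (lam * r) * G.mu (lam * r)) * (((G.x2 w r + G.x2 z r) / 2) +
        ((w + z) * (E0.G.xi1 w r) - w * xi) / 2) +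
        G.mu (lam * r) * G.LAM (lam * r) * lam * G.q1 (lam * r) / (2 * G.eh (lam * r)) *
          BV.g w z) := by
    subst e_xi
    simp only [RowF.NU, RowF.BS, Rn, nu0, v0_bsn, bef_val, n1f_val, lmf_val, mu_val',
      qo_val, eh_val, xi1_val]
    rw [x2_eq H1, x2_eq H2]
    unfold Bs.g BV
    push_cast
    ring
  have k12 : Rn.K12 w z lam r = G.nk (lam * r) (G.C1d r lam w).k (G.C1d r lam w).b := by
    unfold RowF.K12
    simp only [Rn, nk1m_wp, k1m_wp, b1m_wp, nkf_val]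
    unfold G.nk
    rw [k1m_val H1, b1m_val H1]
  have c12 : Rn.A12 w z lam r / r + Rn.B12 w z lam r = (G.C1d r lam w).c r := by
    unfold RowF.A12 RowF.B12
    simp only [Rn, zr7, l1m_wp]
    rw [cC1d H1]
    push_cast
    ring
  have k23 : Rn.K23 w z lam r = G.nk (lam * r) (-G.C1d r lam z).k (-G.C1d r lam z).b := by
    unfold RowF.K23
    simp only [Rn, nk1m_zn, k1m_zn, b1m_zn, nkf_val]
    unfold G.nk
    rw [neg_k, neg_b, k1m_val H2, b1m_val H2]
  have c23 : Rn.A23 w z lam r / r + Rn.B23 w z lam r = (-G.C1d r lam z).c r := by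
    unfold RowF.A23 RowF.B23
    simp only [Rn, zr7, l1m_zn]
    rw [neg_c, cC1d H2]
    push_cast
    ring
  have k13 : Rn.K13 w z lam r = G.nk (lam * r) (G.V0 xi r lam (w + z)).k
      (G.V0 xi r lam (w + z)).b := by
    unfold RowF.K13
    rw [hU]
    simp only [Rn, v0_nk13, v0_k13, v0_b13, nkf_val]
    rw [gk_val D.l0 ht, gb_val D.l0 ht]
    rfl
  have c13 : Rn.A13 w z lam r / r + Rn.B13 w z lam r = (G.V0 xi r lam (w + z)).c r := by
    unfold RowF.A13 RowF.B13
    rw [hU]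
    simp only [Rn, v0_a13, zr7, qx3_val D.l0 ht, dd1_val]
    unfold Sv.c
    show _ = xi * ((G.W3 r lam (w + z)).cA / E0.G.xi1 (w + z) r) / r + 0
    rw [xi1_D, ← neg_mul, ← div_div, ← div_eq_mul_inv]
    push_cast
    ring
  exact near_goodV hp rfl rfl hD hn hb ⟨k12, k23, k13, c12, c23, c13⟩

end

end Pool.Agent.Strip051.LC.E1.V0
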